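import Pool.Agent.R795.PD.ConeDef

/-!
# Cocycles and coboundaries as submodules
-/

set_option autoImplicit false

namespace Pool.Agent.R795.PD

open Module

namespace CDGA

variable (A : CDGA)

/-- The graded pieces. -/
abbrev X (p : ℤ) : Type := A.V.X p

/-- The cocycles of degree `p`. -/
def Z (p : ℤ) : Submodule ℚ (A.X p) := LinearMap.ker (A.dL p (p + 1) rfl)

/-- The coboundaries of degree `p`. -/
def Bd (p : ℤ) : Submodule ℚ (A.X p) :=
  LinearMap.range (A.dL (p - 1) p (sub_add_cancel p 1))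

/-- The cohomology `H^p(A)`: cocycles modulo coboundaries. -/
abbrev H (A : CDGA) (p : ℤ) : Type := A.Z p ⧸ (A.Bd p).comap (A.Z p).subtype

theorem cyc_iff {p : ℤ} {x : A.X p} : A.Cyc x ↔ x ∈ A.Z p := Iff.rfl

theorem bdry_iff {p : ℤ} {x : A.X p} : A.Bdry x ↔ x ∈ A.Bd p := Iff.rfl

theorem mem_Z {p : ℤ} {x : A.X p} : x ∈ A.Z p ↔ A.dL p (p + 1) rfl x = 0 := LinearMap.mem_ker

theorem d_eq_zero {p q : ℤ} (h : p + 1 = q) {x : A.X p} (hx : x ∈ A.Z p) : A.dL p q h x = 0 := by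
  subst h
  exact hx

theorem mem_Z_of {p q : ℤ} (h : p + 1 = q) {x : A.X p} (hx : A.dL p q h x = 0) : x ∈ A.Z p := by
  subst h
  exact hx

theorem mem_Bd_iff {p q : ℤ} (h : q + 1 = p) {x : A.X p} :
    x ∈ A.Bd p ↔ ∃ y, A.dL q p h y = x := by
  obtain rfl : q = p - 1 := by omega
  exact LinearMap.mem_range

theorem d_mem_Bd {p q : ℤ} (h : q + 1 = p) (y : A.X q) : A.dL q p h y ∈ A.Bd p :=
  (A.mem_Bd_iff h).2 ⟨y, rfl⟩

theorem Bd_le_Z (p : ℤ) : A.Bd p ≤ A.Z p := by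
  intro x hx
  obtain ⟨y, rfl⟩ := (A.mem_Bd_iff (sub_add_cancel p 1)).1 hx
  exact A.dL_dL _ _ _ _ _ _

theorem mul_mem_Z {p q r : ℤ} (h : p + q = r) {x : A.X p} {y : A.X q} (hx : x ∈ A.Z p)
    (hy : y ∈ A.Z q) : A.mulL p q r h x y ∈ A.Z r := by
  rw [mem_Z, A.leibnizL p q r (p + 1) (q + 1) (r + 1) h rfl rfl rfl (by omega) (by omega),
    A.d_eq_zero rfl hx, A.d_eq_zero rfl hy]
  simp

theorem mul_mem_Bd {p q r : ℤ} (h : p + q = r) {x : A.X p} {y : A.X q} (hx : x ∈ A.Z p)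
    (hy : y ∈ A.Bd q) : A.mulL p q r h x y ∈ A.Bd r := by
  obtain ⟨u, rfl⟩ := (A.mem_Bd_iff (sub_add_cancel q 1)).1 hy
  have key := A.leibnizL p (q - 1) (r - 1) (p + 1) q r (by omega) rfl (by omega) (by omega)
    (by omega) h x u
  rw [A.d_eq_zero rfl hx, map_zero, LinearMap.zero_apply, zero_add] at key
  have h2 : A.mulL p q r h x (A.dL (q - 1) q (sub_add_cancel q 1) u) =
      sg p • A.dL (r - 1) r (by omega) (A.mulL p (q - 1) (r - 1) (by omega) x u) := by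
    rw [key, smul_smul, sg_mul_self, one_smul]
  rw [h2]
  exact Submodule.smul_mem _ _ (A.d_mem_Bd _ _)

theorem mul_mem_Bd' {p q r : ℤ} (h : p + q = r) {x : A.X p} {y : A.X q} (hx : x ∈ A.Bd p)
    (hy : y ∈ A.Z q) : A.mulL p q r h x y ∈ A.Bd r := by
  rw [A.mulL_comm p q r h (by omega)]
  exact Submodule.smul_mem _ _ (A.mul_mem_Bd _ hy hx)

/-- The unit, in a degree which is equal to `0`. -/
def oneAt (j : ℤ) (hj : 0 = j) : A.X j := hj ▸ A.one

theorem mul_oneAt (p j : ℤ) (hj : 0 = j) (h : p + j = p) (x : A.X p) :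
    A.mulL p j p h x (A.oneAt j hj) = x := by
  subst hj
  change A.mulL p 0 p h x A.one = x
  rw [A.mulL_comm p 0 p h (by omega), A.one_mulL, mul_zero, sg_zero, one_smul]

theorem d_one (h : (0 : ℤ) + 1 = 1) : A.dL 0 1 h A.one = 0 := by
  have key := A.leibnizL 0 0 0 1 1 1 (by omega) (by omega) (by omega) (by omega) (by omega)
    (by omega) A.one A.one
  rw [A.one_mulL, sg_zero, one_smul, A.one_mulL] at key
  have h2 := A.mul_oneAt 1 0 rfl (by omega) (A.dL 0 1 (by omega) A.one)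
  change A.mulL 1 0 1 _ _ A.one = _ at h2
  rw [h2] at key
  have h3 : A.dL 0 1 h A.one + A.dL 0 1 h A.one - A.dL 0 1 h A.one = 0 := by
    rw [← key, sub_self]
  simpa using h3

theorem d_oneAt (j j' : ℤ) (hj : 0 = j) (h : j + 1 = j') : A.dL j j' h (A.oneAt j hj) = 0 := by
  subst hj
  obtain rfl : j' = 1 := by omega
  exact A.d_one h

theorem one_mem_Z : A.one ∈ A.Z 0 := A.mem_Z_of (by omega) (A.d_one (by omega))

end CDGA

end Pool.Agent.R795.PD
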