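import Pool.Agent.R795.PD.Basic

/-!
# Cohomology of semi-trivial mapping cones: the main argument
-/

set_option autoImplicit false

namespace Pool.Agent.R795.PD

open Module

section

variable {Q : CDGA} {n : ℤ} (Ψ : (shiftDual Q n).HomToBase) (hΨ : Ψ.Balanced)

/-- The first component of an element of the cone. -/
def fs {p : ℤ} (u : (cone Ψ hΨ).X p) : Q.X p := u.1

/-- The second component of an element of the cone. -/
def sd {p : ℤ} (u : (cone Ψ hΨ).X p) : Dual ℚ (Q.X (n - (p + 1))) := u.2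

/-- The element of the cone with given components. -/
def mk {p : ℤ} (a : Q.X p) (φ : Dual ℚ (Q.X (n - (p + 1)))) : (cone Ψ hΨ).X p := (a, φ)

@[simp] theorem fs_mk {p : ℤ} (a : Q.X p) (φ : Dual ℚ (Q.X (n - (p + 1)))) :
    fs Ψ hΨ (mk Ψ hΨ a φ) = a := rfl

@[simp] theorem csd_mk {p : ℤ} (a : Q.X p) (φ : Dual ℚ (Q.X (n - (p + 1)))) :
    sd Ψ hΨ (mk Ψ hΨ a φ) = φ := rfl

theorem coneX_ext {p : ℤ} {u v : (cone Ψ hΨ).X p} (h1 : fs Ψ hΨ u = fs Ψ hΨ v)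
    (h2 : sd Ψ hΨ u = sd Ψ hΨ v) : u = v := Prod.ext h1 h2

@[simp] theorem fs_sub {p : ℤ} (u v : (cone Ψ hΨ).X p) :
    fs Ψ hΨ (u - v) = fs Ψ hΨ u - fs Ψ hΨ v := rfl

@[simp] theorem csd_sub {p : ℤ} (u v : (cone Ψ hΨ).X p) :
    sd Ψ hΨ (u - v) = sd Ψ hΨ u - sd Ψ hΨ v := rfl

@[simp] theorem fs_add {p : ℤ} (u v : (cone Ψ hΨ).X p) :
    fs Ψ hΨ (u + v) = fs Ψ hΨ u + fs Ψ hΨ v := rfl

@[simp] theorem csd_add {p : ℤ} (u v : (cone Ψ hΨ).X p) :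
    sd Ψ hΨ (u + v) = sd Ψ hΨ u + sd Ψ hΨ v := rfl

@[simp] theorem fs_smul {p : ℤ} (c : ℚ) (u : (cone Ψ hΨ).X p) :
    fs Ψ hΨ (c • u) = c • fs Ψ hΨ u := rfl

@[simp] theorem csd_smul {p : ℤ} (c : ℚ) (u : (cone Ψ hΨ).X p) :
    sd Ψ hΨ (c • u) = c • sd Ψ hΨ u := rfl

@[simp] theorem fs_zero {p : ℤ} : fs Ψ hΨ (0 : (cone Ψ hΨ).X p) = 0 := rfl

@[simp] theorem csd_zero {p : ℤ} : sd Ψ hΨ (0 : (cone Ψ hΨ).X p) = 0 := rfl

theorem fs_d {p q : ℤ} (h : p + 1 = q) (u : (cone Ψ hΨ).X p) :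
    fs Ψ hΨ ((cone Ψ hΨ).dL p q h u) = Q.dL p q h (fs Ψ hΨ u) + Ψ.shifted p q h u.2 := rfl

theorem csd_d {p q : ℤ} (h : p + 1 = q) (u : (cone Ψ hΨ).X p) (y : Q.X (n - (q + 1))) :
    sd Ψ hΨ ((cone Ψ hΨ).dL p q h u) y =
      sg (p + 1) * sd Ψ hΨ u (Q.dL (n - (q + 1)) (n - (p + 1)) (by omega) y) := by
  change (-1 : ℚ) * (-sg (p + 1) * sd Ψ hΨ u
    (Q.dL (n - (q + 1)) (n - (p + 1)) (by omega) y)) = _
  ring

theorem fs_mul {p q r : ℤ} (h : p + q = r) (u : (cone Ψ hΨ).X p) (v : (cone Ψ hΨ).X q) :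
    fs Ψ hΨ ((cone Ψ hΨ).mulL p q r h u v) = Q.mulL p q r h (fs Ψ hΨ u) (fs Ψ hΨ v) := rfl

theorem csd_mul {p q r : ℤ} (h : p + q = r) (u : (cone Ψ hΨ).X p) (v : (cone Ψ hΨ).X q)
    (y : Q.X (n - (r + 1))) :
    sd Ψ hΨ ((cone Ψ hΨ).mulL p q r h u v) y =
      sg p * (sg (p * (q + 1)) * sd Ψ hΨ v
        (Q.mulL p (n - (r + 1)) (n - (q + 1)) (by omega) (fs Ψ hΨ u) y)) +
      sg ((p + 1) * q) * (sg (q * (p + 1)) * sd Ψ hΨ u
        (Q.mulL q (n - (r + 1)) (n - (p + 1)) (by omega) (fs Ψ hΨ v) y)) := rfl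

theorem shifted_zero (p q : ℤ) (h : p + 1 = q) :
    Ψ.shifted p q h (0 : Dual ℚ (Q.X (n - (p + 1)))) = 0 := by
  subst h
  exact map_zero (Ψ.fL (p + 1))

/-- The inclusion of `Q` preserves cocycles. -/
theorem mk_mem_Z {p : ℤ} {a : Q.X p} (ha : a ∈ Q.Z p) : mk Ψ hΨ a 0 ∈ (cone Ψ hΨ).Z p := by
  rw [CDGA.mem_Z]
  apply coneX_ext
  · rw [fs_d, fs_mk, Q.d_eq_zero rfl ha]
    change 0 + Ψ.shifted p (p + 1) rfl (0 : Dual ℚ (Q.X (n - (p + 1)))) = 0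
    rw [shifted_zero, add_zero]
  · apply LinearMap.ext
    intro y
    rw [csd_d]
    simp

/-- The second component of a cocycle vanishes on coboundaries. -/
theorem csd_d_eq_zero {p q : ℤ} (h : p + 1 = q) {u : (cone Ψ hΨ).X p}
    (hu : u ∈ (cone Ψ hΨ).Z p) (y : Q.X (n - (q + 1))) :
    sd Ψ hΨ u (Q.dL (n - (q + 1)) (n - (p + 1)) (by omega) y) = 0 := by
  have h1 := csd_d Ψ hΨ h u y
  rw [CDGA.d_eq_zero _ h hu] at h1
  have h2 : sg (p + 1) * (sg (p + 1) * sd Ψ hΨ u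
      (Q.dL (n - (q + 1)) (n - (p + 1)) (by omega) y)) = 0 := by
    rw [← h1]
    simp
  rwa [← mul_assoc, sg_mul_self, one_mul] at h2

/-- A cocycle of the cone whose second component vanishes on the cocycles of `Q` is cohomologous
to a cocycle of `Q`. -/
theorem exists_cohomologous {p : ℤ} {u : (cone Ψ hΨ).X p} (hu : u ∈ (cone Ψ hΨ).Z p)
    (h0 : ∀ y ∈ Q.Z (n - (p + 1)), sd Ψ hΨ u y = 0) :
    ∃ a ∈ Q.Z p, u - mk Ψ hΨ a 0 ∈ (cone Ψ hΨ).Bd p := by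
  have hmem : sd Ψ hΨ u ∈ (LinearMap.ker
      (Q.dL (n - (p + 1)) (n - (p - 1 + 1)) (by omega))).dualAnnihilator := by
    rw [Submodule.mem_dualAnnihilator]
    intro w hw
    exact h0 w (Q.mem_Z_of (by omega) (LinearMap.mem_ker.1 hw))
  rw [← LinearMap.range_dualMap_eq_dualAnnihilator_ker] at hmem
  obtain ⟨χ, hχ⟩ := hmem
  have hp : p - 1 + 1 = p := by omega
  let v : (cone Ψ hΨ).X (p - 1) := mk Ψ hΨ 0 (sg (p - 1 + 1) • χ)
  have hsd : sd Ψ hΨ (u - (cone Ψ hΨ).dL (p - 1) p hp v) = 0 := by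
    apply LinearMap.ext
    intro y
    rw [csd_sub, LinearMap.sub_apply, csd_d]
    have h3 : sd Ψ hΨ v (Q.dL (n - (p + 1)) (n - (p - 1 + 1)) (by omega) y) =
        sg (p - 1 + 1) * sd Ψ hΨ u y := by
      rw [← hχ]
      rfl
    rw [h3, ← mul_assoc, sg_mul_self, one_mul, sub_self, LinearMap.zero_apply]
  have hw : u - (cone Ψ hΨ).dL (p - 1) p hp v ∈ (cone Ψ hΨ).Z p :=
    Submodule.sub_mem _ hu (CDGA.Bd_le_Z _ _ (CDGA.d_mem_Bd _ _ _))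
  refine ⟨fs Ψ hΨ (u - (cone Ψ hΨ).dL (p - 1) p hp v), ?_, ?_⟩
  · have h4 := fs_d Ψ hΨ rfl (u - (cone Ψ hΨ).dL (p - 1) p hp v)
    rw [CDGA.d_eq_zero _ rfl hw] at h4
    change (0 : Q.X (p + 1)) = Q.dL p (p + 1) rfl (fs Ψ hΨ (u - (cone Ψ hΨ).dL (p - 1) p hp v)) +
      Ψ.shifted p (p + 1) rfl (sd Ψ hΨ (u - (cone Ψ hΨ).dL (p - 1) p hp v)) at h4
    rw [hsd] at h4
    have h5 : Ψ.shifted p (p + 1) rfl (0 : Dual ℚ (Q.X (n - (p + 1)))) = 0 :=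
      shifted_zero Ψ p (p + 1) rfl
    rw [h5, add_zero] at h4
    exact h4.symm
  · have h6 : u - mk Ψ hΨ (fs Ψ hΨ (u - (cone Ψ hΨ).dL (p - 1) p hp v)) 0 =
        (cone Ψ hΨ).dL (p - 1) p hp v := by
      apply coneX_ext
      · simp
      · have := hsd
        rw [csd_sub, sub_eq_zero] at this
        rw [csd_sub, csd_mk, sub_zero, this]
    rw [h6]
    exact CDGA.d_mem_Bd _ _ _

/-- The linear functional on the cone given by evaluating the second component at the unit. -/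
def eps (m : ℤ) (hm : m + 1 = n) (u : (cone Ψ hΨ).X m) : ℚ :=
  sd Ψ hΨ u (Q.oneAt (n - (m + 1)) (by omega))

theorem eps_sub (m : ℤ) (hm : m + 1 = n) (u v : (cone Ψ hΨ).X m) :
    eps Ψ hΨ m hm (u - v) = eps Ψ hΨ m hm u - eps Ψ hΨ m hm v := by
  unfold eps
  rw [csd_sub, LinearMap.sub_apply]

theorem eps_smul (m : ℤ) (hm : m + 1 = n) (c : ℚ) (u : (cone Ψ hΨ).X m) :
    eps Ψ hΨ m hm (c • u) = c * eps Ψ hΨ m hm u := by
  unfold eps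
  rw [csd_smul, LinearMap.smul_apply, smul_eq_mul]

theorem eps_Bd (m : ℤ) (hm : m + 1 = n) {u : (cone Ψ hΨ).X m} (hu : u ∈ (cone Ψ hΨ).Bd m) :
    eps Ψ hΨ m hm u = 0 := by
  obtain ⟨v, rfl⟩ := (CDGA.mem_Bd_iff _ (sub_add_cancel m 1)).1 hu
  unfold eps
  rw [csd_d, Q.d_oneAt, map_zero, mul_zero]

theorem eps_mul (m : ℤ) (hm : m + 1 = n) (p : ℤ) (h : p + (n - (p + 1)) = m)
    (u : (cone Ψ hΨ).X p) (a : Q.X (n - (p + 1))) :
    eps Ψ hΨ m hm ((cone Ψ hΨ).mulL p (n - (p + 1)) m h u (mk Ψ hΨ a 0)) = sd Ψ hΨ u a := by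
  unfold eps
  rw [csd_mul, csd_mk, fs_mk, LinearMap.zero_apply, Q.mul_oneAt, mul_zero, mul_zero, zero_add,
    ← mul_assoc, mul_comm (n - (p + 1)) (p + 1), sg_mul_self, one_mul]

theorem eps_mul_self (m : ℤ) (hm : m + 1 = n) (p q : ℤ) (h : p + q = m)
    (a : Q.X p) (b : Q.X q) :
    eps Ψ hΨ m hm ((cone Ψ hΨ).mulL p q m h (mk Ψ hΨ a 0) (mk Ψ hΨ b 0)) = 0 := by
  unfold eps
  rw [csd_mul, csd_mk, csd_mk, LinearMap.zero_apply, LinearMap.zero_apply]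
  simp

/-- If `ε` is injective on `H^m` and squares of nonzero classes of `H^p`, where `m = 2 p`, are
nonzero, then `H^p = 0`. -/
theorem case_one (m : ℤ) (hm : m + 1 = n)
    (hε : ∀ z ∈ (cone Ψ hΨ).Z m, eps Ψ hΨ m hm z = 0 → z ∈ (cone Ψ hΨ).Bd m)
    (hsq : ∀ (p : ℤ) (h : p + p = m), ∀ z ∈ (cone Ψ hΨ).Z p,
      (cone Ψ hΨ).mulL p p m h z z ∈ (cone Ψ hΨ).Bd m → z ∈ (cone Ψ hΨ).Bd p)
    (p : ℤ) (h : p + p = m) (u : (cone Ψ hΨ).X p) (hu : u ∈ (cone Ψ hΨ).Z p) :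
    u ∈ (cone Ψ hΨ).Bd p := by
  have hQ : ∀ (q : ℤ), q + q = m → ∀ a ∈ Q.Z q, mk Ψ hΨ a 0 ∈ (cone Ψ hΨ).Bd q := by
    intro q hq a ha
    apply hsq q hq _ (mk_mem_Z Ψ hΨ ha)
    exact hε _ (CDGA.mul_mem_Z _ _ (mk_mem_Z Ψ hΨ ha) (mk_mem_Z Ψ hΨ ha))
      (eps_mul_self Ψ hΨ m hm q q hq a a)
  obtain ⟨a, ha, hua⟩ := exists_cohomologous Ψ hΨ hu (by
    intro y hy
    have hmem : (cone Ψ hΨ).mulL p (n - (p + 1)) m (by omega) u (mk Ψ hΨ y 0) ∈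
        (cone Ψ hΨ).Bd m :=
      CDGA.mul_mem_Bd _ _ hu (hQ _ (by omega) y hy)
    rw [← eps_mul Ψ hΨ m hm p (by omega) u y]
    exact eps_Bd Ψ hΨ m hm hmem)
  have := Submodule.add_mem _ hua (hQ p h a ha)
  rwa [sub_add_cancel] at this

/-- If `ε` vanishes on the cocycles of degree `m`, then the dual of `H^i(Q)` embeds into
`H^j(Q)` for `i + j = n = m + 1`, and the classes in the image become trivial in the cone. -/
theorem case_two (m : ℤ) (hm : m + 1 = n)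
    (hε : ∀ z ∈ (cone Ψ hΨ).Z m, eps Ψ hΨ m hm z = 0) (i j : ℤ) (hij : i + j = n) :
    ∃ a : Dual ℚ (Q.H i) →ₗ[ℚ] Q.H j, Function.Injective a ∧
      ∀ (ψ : Dual ℚ (Q.H i)) (u : Q.Z j), a ψ = Submodule.Quotient.mk u →
        mk Ψ hΨ (u : Q.X j) 0 ∈ (cone Ψ hΨ).Bd j := by
  obtain ⟨l, rfl⟩ : ∃ l, j = l + 1 := ⟨j - 1, by ring⟩
  obtain rfl : i = n - (l + 1) := by omega
  -- a linear retraction of `Q.X i` onto the cohomology
  obtain ⟨ρ, hρ⟩ := LinearMap.exists_extend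
    (((Q.Bd (n - (l + 1))).comap (Q.Z (n - (l + 1))).subtype).mkQ)
  have hρ' : ∀ y : Q.Z (n - (l + 1)), ρ (y : Q.X (n - (l + 1))) = Submodule.Quotient.mk y := by
    intro y
    have := LinearMap.congr_fun hρ y
    simpa using this
  have hρB : ∀ y ∈ Q.Bd (n - (l + 1)), ρ y = 0 := by
    intro y hy
    have h1 := hρ' ⟨y, Q.Bd_le_Z _ hy⟩
    rw [h1, Submodule.Quotient.mk_eq_zero]
    exact hy
  -- the linear map `ψ ↦ Ψ (ψ ∘ ρ)`
  let σ : Dual ℚ (Q.H (n - (l + 1))) →ₗ[ℚ] Dual ℚ (Q.X (n - (l + 1))) := ρ.dualMap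
  have hσ : ∀ ψ, ∀ (l' : ℤ) (hl' : l + 1 + 1 = l'),
      (shiftDual Q n).dL (l + 1) l' hl' (σ ψ) = 0 := by
    intro ψ l' hl'
    apply LinearMap.ext
    intro y
    change (-sg (l + 1)) * ψ (ρ (Q.dL (n - l') (n - (l + 1)) (by omega) y)) = 0
    rw [hρB _ (Q.d_mem_Bd _ _), map_zero, mul_zero]
  have hZ : ∀ ψ, Ψ.fL (l + 1) (σ ψ) ∈ Q.Z (l + 1) := by
    intro ψ
    rw [CDGA.mem_Z, ← Ψ.fL_dL, hσ, map_zero]
  let τ : Dual ℚ (Q.H (n - (l + 1))) →ₗ[ℚ] Q.Z (l + 1) :=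
    LinearMap.codRestrict _ ((Ψ.fL (l + 1)).comp σ) hZ
  refine ⟨(Submodule.mkQ _).comp τ, ?_, ?_⟩
  · rw [← LinearMap.ker_eq_bot, LinearMap.ker_eq_bot']
    intro ψ hψ
    have h1 : Ψ.fL (l + 1) (σ ψ) ∈ Q.Bd (l + 1) := by
      rw [LinearMap.comp_apply, Submodule.mkQ_apply, Submodule.Quotient.mk_eq_zero] at hψ
      exact hψ
    obtain ⟨q, hq⟩ := (Q.mem_Bd_iff rfl).1 h1
    -- the cocycle `(-q, σ ψ)` of the cone
    have hz : mk Ψ hΨ (-q) (σ ψ) ∈ (cone Ψ hΨ).Z l := by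
      rw [CDGA.mem_Z]
      apply coneX_ext
      · rw [fs_d, fs_mk, map_neg, hq]
        change -(Ψ.fL (l + 1) (σ ψ)) + Ψ.fL (l + 1) (σ ψ) = 0
        rw [neg_add_cancel]
      · change (-1 : ℚ) • ((shiftDual Q n).dL (l + 1) (l + 1 + 1) rfl (σ ψ)) = 0
        rw [hσ, smul_zero]
    apply LinearMap.ext
    intro y
    obtain ⟨y, rfl⟩ := Submodule.Quotient.mk_surjective _ y
    rw [← hρ', LinearMap.zero_apply]
    have h2 := eps_mul Ψ hΨ m hm l (by omega) (mk Ψ hΨ (-q) (σ ψ)) (y : Q.X (n - (l + 1)))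
    rw [hε _ (CDGA.mul_mem_Z _ _ hz (mk_mem_Z Ψ hΨ y.2))] at h2
    exact h2.symm
  · intro ψ u hu
    rw [LinearMap.comp_apply, Submodule.mkQ_apply, Submodule.Quotient.eq] at hu
    have h1 : Ψ.fL (l + 1) (σ ψ) - (u : Q.X (l + 1)) ∈ Q.Bd (l + 1) := hu
    obtain ⟨q, hq⟩ := (Q.mem_Bd_iff rfl).1 h1
    rw [CDGA.mem_Bd_iff _ rfl]
    refine ⟨mk Ψ hΨ (-q) (σ ψ), ?_⟩
    apply coneX_ext
    · rw [fs_d, fs_mk, map_neg, hq]
      change -(Ψ.fL (l + 1) (σ ψ) - (u : Q.X (l + 1))) + Ψ.fL (l + 1) (σ ψ) = u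
      abel
    · change (-1 : ℚ) • ((shiftDual Q n).dL (l + 1) (l + 1 + 1) rfl (σ ψ)) = 0
      rw [hσ, smul_zero]

end

/-- If the dual of each of two vector spaces embeds into the other one, the embeddings are
surjective. -/
theorem surjective_of_dual_embeddings {V W : Type} [AddCommGroup V] [Module ℚ V]
    [AddCommGroup W] [Module ℚ W] (a : Dual ℚ W →ₗ[ℚ] V) (ha : Function.Injective a)
    (b : Dual ℚ V →ₗ[ℚ] W) (hb : Function.Injective b) : Function.Surjective a := by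
  have hV : FiniteDimensional ℚ V := by
    by_contra hV
    have h0 : Cardinal.aleph0 ≤ Module.rank ℚ V := by
      rw [← not_lt]
      intro h
      exact hV (Module.rank_lt_aleph0_iff.1 h)
    have h1 : Module.rank ℚ V < Module.rank ℚ (Dual ℚ V) := rank_lt_rank_dual h0
    have h2 : Module.rank ℚ (Dual ℚ V) ≤ Module.rank ℚ W := LinearMap.rank_le_of_injective b hb
    have h3 : Module.rank ℚ W < Module.rank ℚ (Dual ℚ W) :=
      rank_lt_rank_dual (h0.trans (h1.le.trans h2))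
    have h4 : Module.rank ℚ (Dual ℚ W) ≤ Module.rank ℚ V := LinearMap.rank_le_of_injective a ha
    exact absurd (h1.trans_le (h2.trans (h3.le.trans h4))) (lt_irrefl _)
  have hW' : FiniteDimensional ℚ (Dual ℚ W) := Module.Finite.of_injective a ha
  have hW : FiniteDimensional ℚ W := by
    by_contra hW
    have h0 : Cardinal.aleph0 ≤ Module.rank ℚ W := by
      rw [← not_lt]
      intro h
      exact hW (Module.rank_lt_aleph0_iff.1 h)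
    have h3 : Module.rank ℚ W < Module.rank ℚ (Dual ℚ W) := rank_lt_rank_dual h0
    have h4 : Module.rank ℚ (Dual ℚ W) < Cardinal.aleph0 := Module.rank_lt_aleph0_iff.2 hW'
    exact absurd (h0.trans_lt (h3.trans h4)) (lt_irrefl _)
  have e1 : finrank ℚ (Dual ℚ W) = finrank ℚ W := Subspace.dual_finrank_eq
  have e2 : finrank ℚ (Dual ℚ V) = finrank ℚ V := Subspace.dual_finrank_eq
  have e3 := LinearMap.finrank_le_finrank_of_injective ha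
  have e4 := LinearMap.finrank_le_finrank_of_injective hb
  exact (LinearMap.injective_iff_surjective_of_finrank_eq_finrank (by omega)).1 ha

/-- The main algebraic result: if the semi-trivial cone `C` of a balanced morphism
`s^{-n} #Q → Q`, where `n = m + 1`, satisfies `1 ≠ 0` in cohomology and `H^m(C)` is at most
one-dimensional, and if squares of nonzero classes of `H^p(C)`, `m = 2 p`, are nonzero, then
`H^p(C) = 0`. -/
theorem main_cone {Q : CDGA} {m : ℤ} (Ψ : (shiftDual Q (m + 1)).HomToBase) (hΨ : Ψ.Balanced)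
    (h1 : (cone Ψ hΨ).one ∉ (cone Ψ hΨ).Bd 0)
    (hm : ∃ w ∈ (cone Ψ hΨ).Z m, ∀ z ∈ (cone Ψ hΨ).Z m, ∃ c : ℚ,
      z - c • w ∈ (cone Ψ hΨ).Bd m)
    (hsq : ∀ (p : ℤ) (h : p + p = m), ∀ z ∈ (cone Ψ hΨ).Z p,
      (cone Ψ hΨ).mulL p p m h z z ∈ (cone Ψ hΨ).Bd m → z ∈ (cone Ψ hΨ).Bd p)
    (p : ℤ) (h : p + p = m) (u : (cone Ψ hΨ).X p) (hu : u ∈ (cone Ψ hΨ).Z p) :
    u ∈ (cone Ψ hΨ).Bd p := by
  obtain ⟨w, hw, hm⟩ := hm
  by_cases hε : eps Ψ hΨ m rfl w = 0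
  · exfalso
    have hε' : ∀ z ∈ (cone Ψ hΨ).Z m, eps Ψ hΨ m rfl z = 0 := by
      intro z hz
      obtain ⟨c, hc⟩ := hm z hz
      have := eps_Bd Ψ hΨ m rfl hc
      rwa [eps_sub, eps_smul, hε, mul_zero, sub_zero] at this
    obtain ⟨a, ha, ha'⟩ := case_two Ψ hΨ m rfl hε' (m + 1) 0 (by omega)
    obtain ⟨b, hb, -⟩ := case_two Ψ hΨ m rfl hε' 0 (m + 1) (by omega)
    obtain ⟨ψ, hψ⟩ := surjective_of_dual_embeddings a ha b hb
      (Submodule.Quotient.mk ⟨Q.one, Q.one_mem_Z⟩)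
    exact h1 (ha' ψ _ hψ)
  · apply case_one Ψ hΨ m rfl _ hsq p h u hu
    intro z hz hz0
    obtain ⟨c, hc⟩ := hm z hz
    have := eps_Bd Ψ hΨ m rfl hc
    rw [eps_sub, eps_smul, hz0, zero_sub, neg_eq_zero, mul_eq_zero] at this
    rcases this with rfl | h2
    · simpa using hc
    · exact absurd h2 hε

end Pool.Agent.R795.PD
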