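import Pool.Agent.R795.PD.ShiftDual

/-!
# The semi-trivial mapping cone
-/

set_option autoImplicit false

namespace Pool.Agent.R795.PD

variable {Q : CDGA} {M : DGModule Q}

/-- The component of `Ψ` from degree `p + 1` to degree `q`, for `p + 1 = q`. -/
def DGModule.HomToBase.shifted (Ψ : M.HomToBase) (p q : ℤ) (h : p + 1 = q)
    (x : M.V.X (p + 1)) : Q.V.X q := h ▸ Ψ.f (p + 1) x

/-- The graded vector space `Q ⊕ s M`: its piece of degree `p` is `Q^p × M^{p+1}`. -/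
def coneV (M : DGModule Q) : GS where
  X p := Q.V.X p × M.V.X (p + 1)

theorem degree_s {p q : ℤ} (h : p + 1 = q) : p + 1 + 1 = q + 1 := by omega

theorem degree_l {p q r : ℤ} (h : p + q = r) : p + (q + 1) = r + 1 := by omega

theorem degree_r {p q r : ℤ} (h : p + q = r) : q + (p + 1) = r + 1 := by omega

/-- The differential `δ(q, s m) = (d q + Ψ(m), - s d m)` of the mapping cone. -/
def coneD (Ψ : M.HomToBase) (p q : ℤ) (h : p + 1 = q) (u : (coneV M).X p) : (coneV M).X q :=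
  (Q.V.add (Q.d p q h u.1) (Ψ.shifted p q h u.2),
    M.V.smul (-1) (M.d (p + 1) (q + 1) (degree_s h) u.2))

/-- The product `(a, s m) (b, s m') = (a b, (-1) ^ |a| s (a m') + (-1) ^ ((|a|+1)|b|) s (b m))` of
the mapping cone. -/
def coneMul (M : DGModule Q) (p q r : ℤ) (h : p + q = r) (u : (coneV M).X p)
    (v : (coneV M).X q) : (coneV M).X r :=
  (Q.mul p q r h u.1 v.1,
    M.V.add (M.V.smul (sg p) (M.act p (q + 1) (r + 1) (degree_l h) u.1 v.2))
      (M.V.smul (sg ((p + 1) * q)) (M.act q (p + 1) (r + 1) (degree_r h) v.1 u.2)))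

theorem cone_ext {p : ℤ} {u v : (coneV M).X p} (h1 : u.1 = v.1) (h2 : u.2 = v.2) : u = v :=
  Prod.ext h1 h2

theorem cone_add {p : ℤ} (u v : (coneV M).X p) :
    (coneV M).add u v = (Q.V.add u.1 v.1, M.V.add u.2 v.2) := rfl

theorem cone_smul {p : ℤ} (c : ℚ) (u : (coneV M).X p) :
    (coneV M).smul c u = (Q.V.smul c u.1, M.V.smul c u.2) := rfl

theorem cone_zero (p : ℤ) :
    (coneV M).zero p = ((Q.V.zero p, M.V.zero (p + 1)) : Q.V.X p × M.V.X (p + 1)) := rfl

namespace DGModule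

variable (M)

/-- The differential of `M` as a linear map. -/
def dL (p q : ℤ) (h : p + 1 = q) : M.V.X p →ₗ[ℚ] M.V.X q := (M.d_lin p q h).toLin

/-- The action as a bilinear map. -/
def actL (p q r : ℤ) (h : p + q = r) : Q.V.X p →ₗ[ℚ] M.V.X q →ₗ[ℚ] M.V.X r :=
  LinearMap.mk₂ ℚ (M.act p q r h)
    (fun a b x => ((M.act_bil p q r h).2 x).1 a b) (fun c a x => ((M.act_bil p q r h).2 x).2 c a)
    (fun a x y => ((M.act_bil p q r h).1 a).1 x y) (fun c a x => ((M.act_bil p q r h).1 a).2 c x)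

theorem dL_dL (p q r : ℤ) (h : p + 1 = q) (h' : q + 1 = r) (x : M.V.X p) :
    M.dL q r h' (M.dL p q h x) = 0 := M.d_d p q r h h' x

theorem one_actL (p : ℤ) (h : 0 + p = p) (x : M.V.X p) : M.actL 0 p p h Q.one x = x :=
  M.one_act p h x

theorem actL_actL (p q r s t u : ℤ) (h₁ : p + q = s) (h₂ : s + r = u) (h₃ : q + r = t)
    (h₄ : p + t = u) (a : Q.V.X p) (b : Q.V.X q) (x : M.V.X r) :
    M.actL s r u h₂ (Q.mul p q s h₁ a b) x = M.actL p t u h₄ a (M.actL q r t h₃ b x) :=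
  M.mul_act p q r s t u h₁ h₂ h₃ h₄ a b x

end DGModule

namespace CDGA

variable (A : CDGA)

/-- The differential of `A` as a linear map. -/
def dL (p q : ℤ) (h : p + 1 = q) : A.V.X p →ₗ[ℚ] A.V.X q := (A.d_lin p q h).toLin

/-- The product as a bilinear map. -/
def mulL (p q r : ℤ) (h : p + q = r) : A.V.X p →ₗ[ℚ] A.V.X q →ₗ[ℚ] A.V.X r :=
  LinearMap.mk₂ ℚ (A.mul p q r h)
    (fun a b x => ((A.mul_bil p q r h).2 x).1 a b) (fun c a x => ((A.mul_bil p q r h).2 x).2 c a)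
    (fun a x y => ((A.mul_bil p q r h).1 a).1 x y) (fun c a x => ((A.mul_bil p q r h).1 a).2 c x)

theorem dL_dL (p q r : ℤ) (h : p + 1 = q) (h' : q + 1 = r) (x : A.V.X p) :
    A.dL q r h' (A.dL p q h x) = 0 := A.d_d p q r h h' x

theorem one_mulL (p : ℤ) (h : 0 + p = p) (x : A.V.X p) : A.mulL 0 p p h A.one x = x :=
  A.one_mul p h x

theorem mulL_assoc (p q r s t u : ℤ) (h₁ : p + q = s) (h₂ : s + r = u) (h₃ : q + r = t)
    (h₄ : p + t = u) (x : A.V.X p) (y : A.V.X q) (z : A.V.X r) :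
    A.mulL s r u h₂ (A.mulL p q s h₁ x y) z = A.mulL p t u h₄ x (A.mulL q r t h₃ y z) :=
  A.mul_assoc p q r s t u h₁ h₂ h₃ h₄ x y z

theorem mulL_comm (p q r : ℤ) (h : p + q = r) (h' : q + p = r) (x : A.V.X p) (y : A.V.X q) :
    A.mulL p q r h x y = sg (p * q) • A.mulL q p r h' y x := A.mul_comm p q r h h' x y

theorem leibnizL (p q r p' q' r' : ℤ) (h : p + q = r) (hp : p + 1 = p') (hq : q + 1 = q')
    (hr : r + 1 = r') (h₁ : p' + q = r') (h₂ : p + q' = r') (x : A.V.X p) (y : A.V.X q) :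
    A.dL r r' hr (A.mulL p q r h x y) =
      A.mulL p' q r' h₁ (A.dL p p' hp x) y + sg p • A.mulL p q' r' h₂ x (A.dL q q' hq y) :=
  A.leibniz p q r p' q' r' h hp hq hr h₁ h₂ x y

end CDGA

namespace DGModule

variable (M)

theorem leibnizL (p q r p' q' r' : ℤ) (h : p + q = r) (hp : p + 1 = p') (hq : q + 1 = q')
    (hr : r + 1 = r') (h₁ : p' + q = r') (h₂ : p + q' = r') (a : Q.V.X p) (x : M.V.X q) :
    M.dL r r' hr (M.actL p q r h a x) =
      M.actL p' q r' h₁ (Q.dL p p' hp a) x + sg p • M.actL p q' r' h₂ a (M.dL q q' hq x) :=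
  M.leibniz p q r p' q' r' h hp hq hr h₁ h₂ a x

theorem actL_mulL (p q r s t u : ℤ) (h₁ : p + q = s) (h₂ : s + r = u) (h₃ : q + r = t)
    (h₄ : p + t = u) (a : Q.V.X p) (b : Q.V.X q) (x : M.V.X r) :
    M.actL s r u h₂ (Q.mulL p q s h₁ a b) x = M.actL p t u h₄ a (M.actL q r t h₃ b x) :=
  M.mul_act p q r s t u h₁ h₂ h₃ h₄ a b x

variable {M}

/-- The components of `Ψ` as linear maps. -/
def HomToBase.fL (Ψ : M.HomToBase) (p : ℤ) : M.V.X p →ₗ[ℚ] Q.V.X p := (Ψ.f_lin p).toLin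

theorem HomToBase.fL_dL (Ψ : M.HomToBase) (p q : ℤ) (h : p + 1 = q) (x : M.V.X p) :
    Ψ.fL q (M.dL p q h x) = Q.dL p q h (Ψ.fL p x) := Ψ.map_d p q h x

theorem HomToBase.fL_actL (Ψ : M.HomToBase) (p q r : ℤ) (h : p + q = r) (a : Q.V.X p)
    (x : M.V.X q) : Ψ.fL r (M.actL p q r h a x) = Q.mulL p q r h a (Ψ.fL q x) :=
  Ψ.map_act p q r h a x

end DGModule

theorem coneD_lin (Ψ : M.HomToBase) (p q : ℤ) (h : p + 1 = q) :
    (coneV M).IsLin (coneV M) (coneD Ψ p q h) := by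
  subst h
  constructor
  · intro u v
    apply cone_ext
    · change Q.dL p (p + 1) rfl (u.1 + v.1) + Ψ.fL (p + 1) (u.2 + v.2) =
        (Q.dL p (p + 1) rfl u.1 + Ψ.fL (p + 1) u.2) + (Q.dL p (p + 1) rfl v.1 + Ψ.fL (p + 1) v.2)
      rw [map_add, map_add]
      abel
    · change (-1 : ℚ) • M.dL (p + 1) (p + 1 + 1) rfl (u.2 + v.2) =
        (-1 : ℚ) • M.dL (p + 1) (p + 1 + 1) rfl u.2 + (-1 : ℚ) • M.dL (p + 1) (p + 1 + 1) rfl v.2
      rw [map_add, smul_add]
  · intro c u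
    apply cone_ext
    · change Q.dL p (p + 1) rfl (c • u.1) + Ψ.fL (p + 1) (c • u.2) =
        c • (Q.dL p (p + 1) rfl u.1 + Ψ.fL (p + 1) u.2)
      rw [map_smul, map_smul, smul_add]
    · change (-1 : ℚ) • M.dL (p + 1) (p + 1 + 1) rfl (c • u.2) =
        c • ((-1 : ℚ) • M.dL (p + 1) (p + 1 + 1) rfl u.2)
      rw [map_smul, smul_comm]

theorem coneMul_bil (M : DGModule Q) (p q r : ℤ) (h : p + q = r) :
    (coneV M).IsBil (coneV M) (coneV M) (coneMul M p q r h) := by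
  refine ⟨fun u => ⟨?_, ?_⟩, fun v => ⟨?_, ?_⟩⟩
  · intro v w
    apply cone_ext
    · exact map_add (Q.mulL p q r h u.1) v.1 w.1
    · change sg p • M.actL p (q + 1) (r + 1) (degree_l h) u.1 (v.2 + w.2) +
          sg ((p + 1) * q) • M.actL q (p + 1) (r + 1) (degree_r h) (v.1 + w.1) u.2 =
        (sg p • M.actL p (q + 1) (r + 1) (degree_l h) u.1 v.2 +
          sg ((p + 1) * q) • M.actL q (p + 1) (r + 1) (degree_r h) v.1 u.2) +
        (sg p • M.actL p (q + 1) (r + 1) (degree_l h) u.1 w.2 +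
          sg ((p + 1) * q) • M.actL q (p + 1) (r + 1) (degree_r h) w.1 u.2)
      rw [map_add, map_add, LinearMap.add_apply]
      module
  · intro c v
    apply cone_ext
    · exact map_smul (Q.mulL p q r h u.1) c v.1
    · change sg p • M.actL p (q + 1) (r + 1) (degree_l h) u.1 (c • v.2) +
          sg ((p + 1) * q) • M.actL q (p + 1) (r + 1) (degree_r h) (c • v.1) u.2 =
        c • (sg p • M.actL p (q + 1) (r + 1) (degree_l h) u.1 v.2 +
          sg ((p + 1) * q) • M.actL q (p + 1) (r + 1) (degree_r h) v.1 u.2)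
      rw [map_smul, map_smul, LinearMap.smul_apply]
      module
  · intro u w
    apply cone_ext
    · change Q.mulL p q r h (u.1 + w.1) v.1 = Q.mulL p q r h u.1 v.1 + Q.mulL p q r h w.1 v.1
      rw [map_add, LinearMap.add_apply]
    · change sg p • M.actL p (q + 1) (r + 1) (degree_l h) (u.1 + w.1) v.2 +
          sg ((p + 1) * q) • M.actL q (p + 1) (r + 1) (degree_r h) v.1 (u.2 + w.2) =
        (sg p • M.actL p (q + 1) (r + 1) (degree_l h) u.1 v.2 +
          sg ((p + 1) * q) • M.actL q (p + 1) (r + 1) (degree_r h) v.1 u.2) +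
        (sg p • M.actL p (q + 1) (r + 1) (degree_l h) w.1 v.2 +
          sg ((p + 1) * q) • M.actL q (p + 1) (r + 1) (degree_r h) v.1 w.2)
      rw [map_add, map_add, LinearMap.add_apply]
      module
  · intro c u
    apply cone_ext
    · change Q.mulL p q r h (c • u.1) v.1 = c • Q.mulL p q r h u.1 v.1
      rw [map_smul, LinearMap.smul_apply]
    · change sg p • M.actL p (q + 1) (r + 1) (degree_l h) (c • u.1) v.2 +
          sg ((p + 1) * q) • M.actL q (p + 1) (r + 1) (degree_r h) v.1 (c • u.2) =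
        c • (sg p • M.actL p (q + 1) (r + 1) (degree_l h) u.1 v.2 +
          sg ((p + 1) * q) • M.actL q (p + 1) (r + 1) (degree_r h) v.1 u.2)
      rw [map_smul, map_smul, LinearMap.smul_apply]
      module

theorem coneD_d (Ψ : M.HomToBase) (p q r : ℤ) (h : p + 1 = q) (h' : q + 1 = r)
    (u : (coneV M).X p) : coneD Ψ q r h' (coneD Ψ p q h u) = (coneV M).zero r := by
  subst h h'
  apply cone_ext
  · change Q.dL (p + 1) (p + 1 + 1) rfl (Q.dL p (p + 1) rfl u.1 + Ψ.fL (p + 1) u.2) +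
      Ψ.fL (p + 1 + 1) ((-1 : ℚ) • M.dL (p + 1) (p + 1 + 1) rfl u.2) = 0
    rw [map_add, Q.dL_dL, map_smul, Ψ.fL_dL]
    module
  · change (-1 : ℚ) • M.dL (p + 1 + 1) (p + 1 + 1 + 1) rfl
      ((-1 : ℚ) • M.dL (p + 1) (p + 1 + 1) rfl u.2) = 0
    rw [map_smul, M.dL_dL, smul_zero, smul_zero]

/-- The unit of the cone. -/
def coneOne (M : DGModule Q) : (coneV M).X 0 := (Q.one, M.V.zero (0 + 1))

theorem cone_one (M : DGModule Q) (p : ℤ) (h : 0 + p = p) (u : (coneV M).X p) :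
    coneMul M 0 p p h (coneOne M) u = u := by
  apply cone_ext
  · exact Q.one_mul _ _ _
  · change sg 0 • M.actL 0 (p + 1) (p + 1) (degree_l h) Q.one u.2 +
      sg ((0 + 1) * p) • M.actL p (0 + 1) (p + 1) (degree_r h) u.1 0 = u.2
    rw [M.one_actL, map_zero, sg_zero, smul_zero, one_smul, add_zero]

theorem cone_assoc (M : DGModule Q) (p q r s t u : ℤ) (h₁ : p + q = s) (h₂ : s + r = u)
    (h₃ : q + r = t) (h₄ : p + t = u) (x : (coneV M).X p) (y : (coneV M).X q)
    (z : (coneV M).X r) :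
    coneMul M s r u h₂ (coneMul M p q s h₁ x y) z =
      coneMul M p t u h₄ x (coneMul M q r t h₃ y z) := by
  subst h₁ h₃
  apply cone_ext
  · exact Q.mul_assoc _ _ _ _ _ _ _ _ _ _ _ _ _
  · change sg (p + q) • M.actL (p + q) (r + 1) (u + 1) (degree_l h₂)
          (Q.mulL p q (p + q) rfl x.1 y.1) z.2 +
        sg ((p + q + 1) * r) • M.actL r (p + q + 1) (u + 1) (degree_r h₂) z.1
          (sg p • M.actL p (q + 1) (p + q + 1) (degree_l rfl) x.1 y.2 +
            sg ((p + 1) * q) • M.actL q (p + 1) (p + q + 1) (degree_r rfl) y.1 x.2) =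
      sg p • M.actL p (q + r + 1) (u + 1) (degree_l h₄) x.1
          (sg q • M.actL q (r + 1) (q + r + 1) (degree_l rfl) y.1 z.2 +
            sg ((q + 1) * r) • M.actL r (q + 1) (q + r + 1) (degree_r rfl) z.1 y.2) +
        sg ((p + 1) * (q + r)) • M.actL (q + r) (p + 1) (u + 1) (degree_r h₄)
          (Q.mulL q r (q + r) rfl y.1 z.1) x.2
    rw [M.actL_mulL p q (r + 1) (p + q) (q + r + 1) (u + 1) _ _ (by omega) (by omega),
      Q.mulL_comm q r (q + r) rfl (by omega) y.1 z.1]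
    simp only [map_add, map_smul, LinearMap.smul_apply]
    rw [← M.actL_mulL r p (q + 1) (p + r) (p + q + 1) (u + 1) (by omega) (by omega) (by omega)
      (by omega) z.1 x.1 y.2, Q.mulL_comm r p (p + r) (by omega) (by omega) z.1 x.1,
      ← M.actL_mulL p r (q + 1) (p + r) (q + r + 1) (u + 1) (by omega) (by omega) (by omega)
      (by omega) x.1 z.1 y.2,
      M.actL_mulL r q (p + 1) (q + r) (p + q + 1) (u + 1) (by omega) (by omega) (by omega)
      (by omega) z.1 y.1 x.2]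
    simp only [map_smul, LinearMap.smul_apply, smul_smul, smul_add, ← sg_add]
    rw [sg_eq (p := (p + q + 1) * r + (p + r * p)) (q := p + (q + 1) * r) ⟨p * r, by ring⟩,
      sg_eq (p := (p + 1) * (q + r) + q * r) (q := (p + q + 1) * r + (p + 1) * q) ⟨0, by ring⟩]
    abel

theorem cone_comm (M : DGModule Q) (p q r : ℤ) (h : p + q = r) (h' : q + p = r)
    (x : (coneV M).X p) (y : (coneV M).X q) :
    coneMul M p q r h x y = (coneV M).smul (sg (p * q)) (coneMul M q p r h' y x) := by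
  apply cone_ext
  · exact Q.mul_comm _ _ _ _ _ _ _
  · change sg p • M.actL p (q + 1) (r + 1) (degree_l h) x.1 y.2 +
        sg ((p + 1) * q) • M.actL q (p + 1) (r + 1) (degree_r h) y.1 x.2 =
      sg (p * q) • (sg q • M.actL q (p + 1) (r + 1) (degree_l h') y.1 x.2 +
        sg ((q + 1) * p) • M.actL p (q + 1) (r + 1) (degree_r h') x.1 y.2)
    simp only [smul_smul, smul_add, ← sg_add]
    rw [sg_eq (p := p * q + q) (q := (p + 1) * q) ⟨0, by ring⟩,
      sg_eq (p := p * q + (q + 1) * p) (q := p) ⟨p * q, by ring⟩]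
    abel

theorem cone_leibniz (Ψ : M.HomToBase) (hΨ : Ψ.Balanced) (p q r p' q' r' : ℤ) (h : p + q = r)
    (hp : p + 1 = p') (hq : q + 1 = q') (hr : r + 1 = r') (h₁ : p' + q = r') (h₂ : p + q' = r')
    (x : (coneV M).X p) (y : (coneV M).X q) :
    coneD Ψ r r' hr (coneMul M p q r h x y) =
      (coneV M).add (coneMul M p' q r' h₁ (coneD Ψ p p' hp x) y)
        ((coneV M).smul (sg p) (coneMul M p q' r' h₂ x (coneD Ψ q q' hq y))) := by
  subst h hp hq hr
  apply cone_ext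
  · change Q.dL (p + q) (p + q + 1) rfl (Q.mulL p q (p + q) rfl x.1 y.1) + Ψ.fL (p + q + 1)
        (sg p • M.actL p (q + 1) (p + q + 1) (degree_l rfl) x.1 y.2 +
          sg ((p + 1) * q) • M.actL q (p + 1) (p + q + 1) (degree_r rfl) y.1 x.2) =
      Q.mulL (p + 1) q (p + q + 1) h₁ (Q.dL p (p + 1) rfl x.1 + Ψ.fL (p + 1) x.2) y.1 +
        sg p • Q.mulL p (q + 1) (p + q + 1) h₂ x.1 (Q.dL q (q + 1) rfl y.1 + Ψ.fL (q + 1) y.2)
    rw [Q.leibnizL p q (p + q) (p + 1) (q + 1) (p + q + 1) rfl rfl rfl rfl h₁ h₂]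
    simp only [map_add, map_smul, Ψ.fL_actL, LinearMap.add_apply, smul_add]
    rw [Q.mulL_comm (p + 1) q (p + q + 1) h₁ (by omega) (Ψ.fL (p + 1) x.2) y.1]
    abel
  · change (-1 : ℚ) • (M.dL (p + q + 1) (p + q + 1 + 1) rfl
        (sg p • M.actL p (q + 1) (p + q + 1) (degree_l rfl) x.1 y.2 +
          sg ((p + 1) * q) • M.actL q (p + 1) (p + q + 1) (degree_r rfl) y.1 x.2)) =
      (sg (p + 1) • M.actL (p + 1) (q + 1) (p + q + 1 + 1) (degree_l h₁)
          (Q.dL p (p + 1) rfl x.1 + Ψ.fL (p + 1) x.2) y.2 +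
        sg ((p + 1 + 1) * q) • M.actL q (p + 1 + 1) (p + q + 1 + 1) (degree_r h₁) y.1
          ((-1 : ℚ) • M.dL (p + 1) (p + 1 + 1) rfl x.2)) +
      sg p • (sg p • M.actL p (q + 1 + 1) (p + q + 1 + 1) (degree_l h₂) x.1
          ((-1 : ℚ) • M.dL (q + 1) (q + 1 + 1) rfl y.2) +
        sg ((p + 1) * (q + 1)) • M.actL (q + 1) (p + 1) (p + q + 1 + 1) (degree_r h₂)
          (Q.dL q (q + 1) rfl y.1 + Ψ.fL (q + 1) y.2) x.2)
    have hb : M.actL (p + 1) (q + 1) (p + q + 1 + 1) (degree_l h₁) (Ψ.fL (p + 1) x.2) y.2 =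
        sg ((p + 1) * (q + 1)) • M.actL (q + 1) (p + 1) (p + q + 1 + 1) (degree_r h₂)
          (Ψ.fL (q + 1) y.2) x.2 :=
      hΨ (p + 1) (q + 1) (p + q + 1 + 1) (degree_l h₁) (degree_r h₂) x.2 y.2
    simp only [map_add, map_smul, LinearMap.add_apply]
    rw [M.leibnizL p (q + 1) (p + q + 1) (p + 1) (q + 1 + 1) (p + q + 1 + 1) (by omega) rfl rfl
        rfl (by omega) (by omega) x.1 y.2,
      M.leibnizL q (p + 1) (p + q + 1) (q + 1) (p + 1 + 1) (p + q + 1 + 1) (by omega) rfl rfl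
        rfl (by omega) (by omega) y.1 x.2, hb]
    simp only [smul_smul, smul_add, ← sg_add]
    have e2 : sg (p + 1 + (p + 1) * (q + 1)) = sg ((p + 1) * q) :=
      sg_eq ⟨p + 1, by ring⟩
    have e3 : sg ((p + 1 + 1) * q) = sg ((p + 1) * q + q) := sg_eq ⟨0, by ring⟩
    have e4 : sg (p + (p + 1) * (q + 1)) = -sg ((p + 1) * q) := by
      rw [← sg_succ]
      exact sg_eq ⟨p, by ring⟩
    rw [sg_succ p, e2, e3, e4]
    simp only [sg_add]
    module

/-- The semi-trivial mapping cone `Q ⊕_Ψ s M` of a balanced morphism `Ψ : M → Q`: its piece of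
degree `p` is `Q^p × M^{p+1}`, with the differential `coneD` and the product `coneMul`, which
extends the product of `Q` and the action of `Q` on `s M` and satisfies `(s m) (s m') = 0`. -/
def cone (Ψ : M.HomToBase) (hΨ : Ψ.Balanced) : CDGA where
  V := coneV M
  d := coneD Ψ
  mul := coneMul M
  one := coneOne M
  d_lin := coneD_lin Ψ
  mul_bil := coneMul_bil M
  d_d := coneD_d Ψ
  one_mul := cone_one M
  mul_assoc := cone_assoc M
  mul_comm := cone_comm M
  leibniz := cone_leibniz Ψ hΨ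

end Pool.Agent.R795.PD
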