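import Mathlib

/-!
# Commutative differential graded algebras over `ℚ` and semi-trivial mapping cones

Everything is `ℤ`-graded with an explicit family of graded pieces. To avoid transports along
equalities of degrees, the differential and the products take the target degree together with a
proof of the equation which it satisfies as arguments.
-/

set_option autoImplicit false

namespace Pool.Agent.R795.PD

/-- The sign `(-1) ^ p`, as a rational number. -/
def sg (p : ℤ) : ℚ := ((p.negOnePow : ℤˣ) : ℤ)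

/-- A `ℤ`-graded vector space over `ℚ`. -/
structure GS where
  /-- the graded pieces -/
  X : ℤ → Type
  [grp : ∀ p, AddCommGroup (X p)]
  [mod : ∀ p, Module ℚ (X p)]

attribute [instance] GS.grp GS.mod

namespace GS

/-- The zero element in degree `p`. -/
def zero (V : GS) (p : ℤ) : V.X p := 0

/-- Addition in degree `p`. -/
def add (V : GS) {p : ℤ} (x y : V.X p) : V.X p := x + y

/-- Subtraction in degree `p`. -/
def sub (V : GS) {p : ℤ} (x y : V.X p) : V.X p := x - y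

/-- Scalar multiplication in degree `p`. -/
def smul (V : GS) {p : ℤ} (c : ℚ) (x : V.X p) : V.X p := c • x

/-- The linear combination `∑ c_i e_i` in degree `p`. -/
def comb (V : GS) {p : ℤ} {ι : Type} [Fintype ι] (c : ι → ℚ) (e : ι → V.X p) : V.X p :=
  ∑ i, c i • e i

/-- `f : V^p → W^q` is linear. -/
def IsLin (V W : GS) {p q : ℤ} (f : V.X p → W.X q) : Prop :=
  (∀ x y, f (V.add x y) = W.add (f x) (f y)) ∧ ∀ (c : ℚ) (x), f (V.smul c x) = W.smul c (f x)

/-- `f : U^p × V^q → W^r` is bilinear. -/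
def IsBil (U V W : GS) {p q r : ℤ} (f : U.X p → V.X q → W.X r) : Prop :=
  (∀ x, V.IsLin W (f x)) ∧ ∀ y, U.IsLin W (fun x => f x y)

end GS

/-- A commutative differential graded algebra over `ℚ` (`ℤ`-graded, the differential has
degree `+1`, the product is commutative in the graded sense). -/
structure CDGA where
  /-- the underlying graded vector space -/
  V : GS
  /-- the differential -/
  d : ∀ p q : ℤ, p + 1 = q → V.X p → V.X q
  /-- the product -/
  mul : ∀ p q r : ℤ, p + q = r → V.X p → V.X q → V.X r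
  /-- the unit -/
  one : V.X 0
  d_lin : ∀ (p q : ℤ) (h : p + 1 = q), V.IsLin V (d p q h)
  mul_bil : ∀ (p q r : ℤ) (h : p + q = r), V.IsBil V V (mul p q r h)
  d_d : ∀ (p q r : ℤ) (h : p + 1 = q) (h' : q + 1 = r) (x : V.X p),
    d q r h' (d p q h x) = V.zero r
  one_mul : ∀ (p : ℤ) (h : 0 + p = p) (x : V.X p), mul 0 p p h one x = x
  mul_assoc : ∀ (p q r s t u : ℤ) (h₁ : p + q = s) (h₂ : s + r = u) (h₃ : q + r = t)
    (h₄ : p + t = u) (x : V.X p) (y : V.X q) (z : V.X r),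
    mul s r u h₂ (mul p q s h₁ x y) z = mul p t u h₄ x (mul q r t h₃ y z)
  mul_comm : ∀ (p q r : ℤ) (h : p + q = r) (h' : q + p = r) (x : V.X p) (y : V.X q),
    mul p q r h x y = V.smul (sg (p * q)) (mul q p r h' y x)
  leibniz : ∀ (p q r p' q' r' : ℤ) (h : p + q = r) (hp : p + 1 = p') (hq : q + 1 = q')
    (hr : r + 1 = r') (h₁ : p' + q = r') (h₂ : p + q' = r') (x : V.X p) (y : V.X q),
    d r r' hr (mul p q r h x y) =
      V.add (mul p' q r' h₁ (d p p' hp x) y) (V.smul (sg p) (mul p q' r' h₂ x (d q q' hq y)))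

/-- A morphism of commutative differential graded algebras. -/
structure CDGA.Hom (A B : CDGA) where
  /-- the components -/
  f : ∀ p, A.V.X p → B.V.X p
  f_lin : ∀ p, A.V.IsLin B.V (f p)
  map_d : ∀ (p q : ℤ) (h : p + 1 = q) (x : A.V.X p), f q (A.d p q h x) = B.d p q h (f p x)
  map_mul : ∀ (p q r : ℤ) (h : p + q = r) (x : A.V.X p) (y : A.V.X q),
    f r (A.mul p q r h x y) = B.mul p q r h (f p x) (f q y)
  map_one : f 0 A.one = B.one

/-- `x` is a cocycle: `d x = 0`. -/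
def CDGA.Cyc (A : CDGA) {p : ℤ} (x : A.V.X p) : Prop := A.d p (p + 1) rfl x = A.V.zero (p + 1)

/-- `x` is a coboundary: `x = d y` for some `y`. -/
def CDGA.Bdry (A : CDGA) {p : ℤ} (x : A.V.X p) : Prop :=
  ∃ y : A.V.X (p - 1), A.d (p - 1) p (sub_add_cancel p 1) y = x

/-- `f` induces isomorphisms (that is, injective and surjective maps) on cohomology. -/
def CDGA.Hom.IsQuasiIso {A B : CDGA} (f : CDGA.Hom A B) : Prop :=
  ∀ p : ℤ, (∀ x : A.V.X p, A.Cyc x → B.Bdry (f.f p x) → A.Bdry x) ∧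
    (∀ y : B.V.X p, B.Cyc y → ∃ x : A.V.X p, A.Cyc x ∧ B.Bdry (B.V.sub y (f.f p x)))

/-- `A` and `B` are joined by a zigzag of quasi-isomorphisms. -/
def QuasiIsomorphic : CDGA → CDGA → Prop :=
  Relation.EqvGen fun A B => ∃ f : CDGA.Hom A B, f.IsQuasiIso

/-- A differential graded module over `Q`. -/
structure DGModule (Q : CDGA) where
  /-- the underlying graded vector space -/
  V : GS
  /-- the differential -/
  d : ∀ p q : ℤ, p + 1 = q → V.X p → V.X q
  /-- the action of `Q` -/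
  act : ∀ p q r : ℤ, p + q = r → Q.V.X p → V.X q → V.X r
  d_lin : ∀ (p q : ℤ) (h : p + 1 = q), V.IsLin V (d p q h)
  act_bil : ∀ (p q r : ℤ) (h : p + q = r), Q.V.IsBil V V (act p q r h)
  d_d : ∀ (p q r : ℤ) (h : p + 1 = q) (h' : q + 1 = r) (x : V.X p),
    d q r h' (d p q h x) = V.zero r
  one_act : ∀ (p : ℤ) (h : 0 + p = p) (x : V.X p), act 0 p p h Q.one x = x
  mul_act : ∀ (p q r s t u : ℤ) (h₁ : p + q = s) (h₂ : s + r = u) (h₃ : q + r = t)
    (h₄ : p + t = u) (a : Q.V.X p) (b : Q.V.X q) (x : V.X r),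
    act s r u h₂ (Q.mul p q s h₁ a b) x = act p t u h₄ a (act q r t h₃ b x)
  leibniz : ∀ (p q r p' q' r' : ℤ) (h : p + q = r) (hp : p + 1 = p') (hq : q + 1 = q')
    (hr : r + 1 = r') (h₁ : p' + q = r') (h₂ : p + q' = r') (a : Q.V.X p) (x : V.X q),
    d r r' hr (act p q r h a x) =
      V.add (act p' q r' h₁ (Q.d p p' hp a) x) (V.smul (sg p) (act p q' r' h₂ a (d q q' hq x)))

/-- A morphism `Ψ : M → Q` of differential graded `Q`-modules. -/
structure DGModule.HomToBase {Q : CDGA} (M : DGModule Q) where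
  /-- the components -/
  f : ∀ p, M.V.X p → Q.V.X p
  f_lin : ∀ p, M.V.IsLin Q.V (f p)
  map_d : ∀ (p q : ℤ) (h : p + 1 = q) (x : M.V.X p), f q (M.d p q h x) = Q.d p q h (f p x)
  map_act : ∀ (p q r : ℤ) (h : p + q = r) (a : Q.V.X p) (x : M.V.X q),
    f r (M.act p q r h a x) = Q.mul p q r h a (f q x)

/-- `Ψ` is balanced: `Ψ(x) · y = x · Ψ(y)`, where `x · a = (-1) ^ (|x| |a|) a · x` is the right
action. -/
def DGModule.HomToBase.Balanced {Q : CDGA} {M : DGModule Q} (Ψ : M.HomToBase) : Prop :=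
  ∀ (p q r : ℤ) (h : p + q = r) (h' : q + p = r) (x : M.V.X p) (y : M.V.X q),
    M.act p q r h (Ψ.f p x) y = M.V.smul (sg (p * q)) (M.act q p r h' (Ψ.f q y) x)

/-- The cohomology of `A` satisfies Poincaré duality in dimension `m`, with the orientation
`H^m(A) → ℚ` given on cocycles by `ω`: it is connected (`H^0 = ℚ · 1`), every `H^p` is spanned by
finitely many classes, `H^p = 0` unless `0 ≤ p ≤ m`, and the pairings `H^p × H^q → ℚ`,
`(x, y) ↦ ω (x y)`, are nondegenerate for `p + q = m` (for finite-dimensional spaces,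
nondegeneracy for all `p` says that `x ↦ ω (x · -)` is an isomorphism from `H` to
`s^{-m} #H`). -/
structure CDGA.PoincareDuality (A : CDGA) (m : ℤ) (ω : A.V.X m → ℚ) : Prop where
  map_add : ∀ x y : A.V.X m, ω (A.V.add x y) = ω x + ω y
  map_smul : ∀ (c : ℚ) (x : A.V.X m), ω (A.V.smul c x) = c * ω x
  map_bdry : ∀ x : A.V.X m, A.Bdry x → ω x = 0
  one_ne : ¬ A.Bdry A.one
  connected : ∀ x : A.V.X 0, A.Cyc x → ∃ c : ℚ, A.Bdry (A.V.sub x (A.V.smul c A.one))
  finite : ∀ p : ℤ, ∃ (N : ℕ) (e : Fin N → A.V.X p), (∀ i, A.Cyc (e i)) ∧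
    ∀ x : A.V.X p, A.Cyc x → ∃ c : Fin N → ℚ, A.Bdry (A.V.sub x (A.V.comb c e))
  bounded : ∀ p : ℤ, p < 0 ∨ m < p → ∀ x : A.V.X p, A.Cyc x → A.Bdry x
  nondegenerate : ∀ (p q : ℤ) (h : p + q = m) (x : A.V.X p), A.Cyc x →
    (∀ y : A.V.X q, A.Cyc y → ω (A.mul p q m h x y) = 0) → A.Bdry x

/-- The symmetric form `(x, y) ↦ ω (x y)` on `H^n(A)`, where `m = 2 n`, has signature `0`: there
are cocycles `e_1, …, e_r, e'_1, …, e'_r` whose classes form a basis of `H^n(A)`, which are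
pairwise orthogonal, and for which `ω (e_i e_i) > 0` and `ω (e'_i e'_i) < 0`. -/
def CDGA.SignatureZero (A : CDGA) (n m : ℤ) (h : n + n = m) (ω : A.V.X m → ℚ) : Prop :=
  ∃ (r : ℕ) (e : Fin r ⊕ Fin r → A.V.X n),
    (∀ i, A.Cyc (e i)) ∧
    (∀ c : Fin r ⊕ Fin r → ℚ, A.Bdry (A.V.comb c e) → ∀ i, c i = 0) ∧
    (∀ x : A.V.X n, A.Cyc x → ∃ c : Fin r ⊕ Fin r → ℚ, A.Bdry (A.V.sub x (A.V.comb c e))) ∧
    (∀ i j, i ≠ j → ω (A.mul n n m h (e i) (e j)) = 0) ∧
    (∀ i, 0 < ω (A.mul n n m h (e (Sum.inl i)) (e (Sum.inl i)))) ∧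
    (∀ i, ω (A.mul n n m h (e (Sum.inr i)) (e (Sum.inr i))) < 0)

end Pool.Agent.R795.PD
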