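import Pool.Agent.R795.PD.Transfer

/-!
# The example: the form `x² - 2 y²`
-/

set_option autoImplicit false

namespace Pool.Agent.R795.PD

open Module

/-- The degrees of the basis `1, x, y, w`. -/
def exDeg (k : ℤ) : Fin 4 → ℤ := ![0, 2 * k, 2 * k, 4 * k]

/-- The product of `ℚ⟨1, x, y, w⟩` with `x² = w`, `y² = -2 w`, `x y = 0`. -/
def exMul : (Fin 4 → ℚ) →ₗ[ℚ] (Fin 4 → ℚ) →ₗ[ℚ] (Fin 4 → ℚ) :=
  LinearMap.mk₂ ℚ
    (fun u v => ![u 0 * v 0, u 0 * v 1 + u 1 * v 0, u 0 * v 2 + u 2 * v 0,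
      u 0 * v 3 + u 3 * v 0 + u 1 * v 1 - 2 * (u 2 * v 2)])
    (fun u u' v => by
      ext i
      fin_cases i <;> simp <;> ring)
    (fun c u v => by
      ext i
      fin_cases i <;> simp <;> ring)
    (fun u v v' => by
      ext i
      fin_cases i <;> simp <;> ring)
    (fun c u v => by
      ext i
      fin_cases i <;> simp <;> ring)

/-- The subspace of elements of degree `p`. -/
def exSub (k p : ℤ) : Submodule ℚ (Fin 4 → ℚ) where
  carrier := {u | ∀ i, exDeg k i ≠ p → u i = 0}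
  add_mem' {u v} hu hv i hi := by
    rw [Pi.add_apply, hu i hi, hv i hi, add_zero]
  zero_mem' i _ := rfl
  smul_mem' c u hu i hi := by
    rw [Pi.smul_apply, hu i hi, smul_zero]

theorem exSub_mul {k p q : ℤ} {u v : Fin 4 → ℚ} (hu : u ∈ exSub k p) (hv : v ∈ exSub k q)
    (i j : Fin 4) (h : exDeg k i + exDeg k j ≠ p + q) : u i * v j = 0 := by
  by_cases hi : exDeg k i = p
  · have hj : exDeg k j ≠ q := by
      intro hj
      exact h (by rw [hi, hj])
    rw [hv j hj, mul_zero]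
  · rw [hu i hi, zero_mul]

theorem exMul_mem {k p q r : ℤ} (h : p + q = r) {u v : Fin 4 → ℚ} (hu : u ∈ exSub k p)
    (hv : v ∈ exSub k q) : exMul u v ∈ exSub k r := by
  subst h
  have e0 : exDeg k 0 = 0 := rfl
  have e1 : exDeg k 1 = 2 * k := rfl
  have e2 : exDeg k 2 = 2 * k := rfl
  have e3 : exDeg k 3 = 4 * k := rfl
  intro i hi
  fin_cases i
  · change u 0 * v 0 = 0
    have hi : exDeg k 0 ≠ p + q := hi
    exact exSub_mul hu hv 0 0 (by omega)
  · change u 0 * v 1 + u 1 * v 0 = 0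
    have hi : exDeg k 1 ≠ p + q := hi
    rw [exSub_mul hu hv 0 1 (by omega), exSub_mul hu hv 1 0 (by omega), add_zero]
  · change u 0 * v 2 + u 2 * v 0 = 0
    have hi : exDeg k 2 ≠ p + q := hi
    rw [exSub_mul hu hv 0 2 (by omega), exSub_mul hu hv 2 0 (by omega), add_zero]
  · change u 0 * v 3 + u 3 * v 0 + u 1 * v 1 - 2 * (u 2 * v 2) = 0
    have hi : exDeg k 3 ≠ p + q := hi
    rw [exSub_mul hu hv 0 3 (by omega), exSub_mul hu hv 3 0 (by omega),
      exSub_mul hu hv 1 1 (by omega), exSub_mul hu hv 2 2 (by omega)]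
    ring

theorem exMul_assoc (u v w : Fin 4 → ℚ) : exMul (exMul u v) w = exMul u (exMul v w) := by
  ext i
  fin_cases i
  · change (u 0 * v 0) * w 0 = u 0 * (v 0 * w 0)
    ring
  · change (u 0 * v 0) * w 1 + (u 0 * v 1 + u 1 * v 0) * w 0 =
      u 0 * (v 0 * w 1 + v 1 * w 0) + u 1 * (v 0 * w 0)
    ring
  · change (u 0 * v 0) * w 2 + (u 0 * v 2 + u 2 * v 0) * w 0 =
      u 0 * (v 0 * w 2 + v 2 * w 0) + u 2 * (v 0 * w 0)
    ring
  · change (u 0 * v 0) * w 3 + (u 0 * v 3 + u 3 * v 0 + u 1 * v 1 - 2 * (u 2 * v 2)) * w 0 +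
        (u 0 * v 1 + u 1 * v 0) * w 1 - 2 * ((u 0 * v 2 + u 2 * v 0) * w 2) =
      u 0 * (v 0 * w 3 + v 3 * w 0 + v 1 * w 1 - 2 * (v 2 * w 2)) + u 3 * (v 0 * w 0) +
        u 1 * (v 0 * w 1 + v 1 * w 0) - 2 * (u 2 * (v 0 * w 2 + v 2 * w 0))
    ring

theorem exMul_comm (u v : Fin 4 → ℚ) : exMul u v = exMul v u := by
  ext i
  fin_cases i
  · change u 0 * v 0 = v 0 * u 0
    ring
  · change u 0 * v 1 + u 1 * v 0 = v 0 * u 1 + v 1 * u 0
    ring
  · change u 0 * v 2 + u 2 * v 0 = v 0 * u 2 + v 2 * u 0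
    ring
  · change u 0 * v 3 + u 3 * v 0 + u 1 * v 1 - 2 * (u 2 * v 2) =
      v 0 * u 3 + v 3 * u 0 + v 1 * u 1 - 2 * (v 2 * u 2)
    ring

theorem exDeg_even (k : ℤ) (i : Fin 4) : Even (exDeg k i) := by
  fin_cases i
  · exact ⟨0, rfl⟩
  · exact ⟨k, by change 2 * k = k + k; ring⟩
  · exact ⟨k, by change 2 * k = k + k; ring⟩
  · exact ⟨2 * k, by change 4 * k = 2 * k + 2 * k; ring⟩

theorem exSub_odd {k p : ℤ} (hp : ¬ Even p) {u : Fin 4 → ℚ} (hu : u ∈ exSub k p) : u = 0 := by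
  ext i
  apply hu i
  rintro rfl
  exact hp (exDeg_even k i)

/-- The underlying graded vector space of the example. -/
def exGS (k : ℤ) : GS where
  X p := exSub k p

theorem exGS_ext {k p : ℤ} {u v : (exGS k).X p} (h : u.1 = v.1) : u = v := Subtype.ext h

/-- The product of the example. -/
def exMul' (k p q r : ℤ) (h : p + q = r) (u : (exGS k).X p) (v : (exGS k).X q) :
    (exGS k).X r := ⟨exMul u.1 v.1, exMul_mem h u.2 v.2⟩

theorem one_mem (k : ℤ) : (![1, 0, 0, 0] : Fin 4 → ℚ) ∈ exSub k 0 := by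
  intro i hi
  fin_cases i
  · exact absurd rfl hi
  · rfl
  · rfl
  · rfl

theorem exMul_one (x : Fin 4 → ℚ) : exMul ![1, 0, 0, 0] x = x := by
  ext i
  fin_cases i
  · change 1 * x 0 = x 0
    ring
  · change 1 * x 1 + 0 * x 0 = x 1
    ring
  · change 1 * x 2 + 0 * x 0 = x 2
    ring
  · change 1 * x 3 + 0 * x 0 + 0 * x 1 - 2 * (0 * x 2) = x 3
    ring

/-- The graded algebra `ℚ⟨1, x, y, w⟩`, with `x, y` of degree `2 k` and `w` of degree `4 k`,
`x² = w`, `y² = -2 w`, `x y = 0`, and zero differential. -/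
def exAlg (k : ℤ) : CDGA where
  V := exGS k
  d p q h _ := 0
  mul := exMul' k
  one := ⟨![1, 0, 0, 0], one_mem k⟩
  d_lin p q h := by
    constructor
    · intro x y
      change (0 : exSub k q) = 0 + 0
      rw [add_zero]
    · intro c x
      change (0 : exSub k q) = c • 0
      rw [smul_zero]
  mul_bil p q r h := by
    refine ⟨fun u => ⟨?_, ?_⟩, fun v => ⟨?_, ?_⟩⟩
    · intro v w
      apply exGS_ext
      change exMul u.1 (v.1 + w.1) = exMul u.1 v.1 + exMul u.1 w.1
      rw [map_add]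
    · intro c v
      apply exGS_ext
      change exMul u.1 (c • v.1) = c • exMul u.1 v.1
      rw [map_smul]
    · intro u w
      apply exGS_ext
      change exMul (u.1 + w.1) v.1 = exMul u.1 v.1 + exMul w.1 v.1
      rw [map_add, LinearMap.add_apply]
    · intro c u
      apply exGS_ext
      change exMul (c • u.1) v.1 = c • exMul u.1 v.1
      rw [map_smul, LinearMap.smul_apply]
  d_d p q r h h' x := rfl
  one_mul p h x := exGS_ext (exMul_one x.1)
  mul_assoc p q r s t u h₁ h₂ h₃ h₄ x y z := exGS_ext (exMul_assoc _ _ _)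
  mul_comm p q r h h' x y := by
    apply exGS_ext
    change exMul x.1 y.1 = sg (p * q) • exMul y.1 x.1
    by_cases hp : Even p
    · have : sg (p * q) = 1 := by
        rw [← sg_zero]
        apply sg_eq
        rw [sub_zero]
        exact hp.mul_right q
      rw [this, one_smul, exMul_comm]
    · rw [exSub_odd hp x.2]
      simp
  leibniz p q r p' q' r' h hp hq hr h₁ h₂ x y := by
    apply exGS_ext
    change (0 : Fin 4 → ℚ) = exMul 0 y.1 + sg p • exMul x.1 0
    simp

theorem exAlg_mem_Bd {k p : ℤ} {x : (exAlg k).X p} : x ∈ (exAlg k).Bd p ↔ x = 0 := by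
  constructor
  · rintro ⟨y, rfl⟩
    rfl
  · rintro rfl
    exact Submodule.zero_mem _

theorem exAlg_mem_Z {k p : ℤ} (x : (exAlg k).X p) : x ∈ (exAlg k).Z p := rfl

/-- The coordinate of `w`. -/
def exOmega (k : ℤ) : (exAlg k).X (4 * k) →ₗ[ℚ] ℚ :=
  (LinearMap.proj (3 : Fin 4)).comp (exSub k (4 * k)).subtype

/-- The basis vectors. -/
def exBasis (k : ℤ) (i : Fin 4) (p : ℤ) (h : exDeg k i = p) : (exAlg k).X p :=
  ⟨Pi.single i 1, by
    intro j hj
    apply Pi.single_eq_of_ne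
    rintro rfl
    exact hj h⟩

theorem exOmega_mul {k p q : ℤ} (h : p + q = 4 * k) (x : (exAlg k).X p) (y : (exAlg k).X q) :
    exOmega k ((exAlg k).mulL p q (4 * k) h x y) = x.1 0 * y.1 3 + x.1 3 * y.1 0 +
      x.1 1 * y.1 1 - 2 * (x.1 2 * y.1 2) := rfl

theorem exAlg_nondegenerate {k p q : ℤ} (h : p + q = 4 * k) (x : (exAlg k).X p)
    (hx : ∀ y : (exAlg k).X q, exOmega k ((exAlg k).mulL p q (4 * k) h x y) = 0) : x = 0 := by
  have e0 : exDeg k 0 = 0 := rfl
  have e1 : exDeg k 1 = 2 * k := rfl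
  have e2 : exDeg k 2 = 2 * k := rfl
  have e3 : exDeg k 3 = 4 * k := rfl
  apply Subtype.ext
  ext i
  change x.1 i = 0
  by_cases hi : exDeg k i = p
  · fin_cases i
    · have hi : exDeg k 0 = p := hi
      have := hx (exBasis k 3 q (by omega))
      rw [exOmega_mul] at this
      simpa [exBasis] using this
    · have hi : exDeg k 1 = p := hi
      have := hx (exBasis k 1 q (by omega))
      rw [exOmega_mul] at this
      simpa [exBasis] using this
    · have hi : exDeg k 2 = p := hi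
      have := hx (exBasis k 2 q (by omega))
      rw [exOmega_mul] at this
      simpa [exBasis] using this
    · have hi : exDeg k 3 = p := hi
      have := hx (exBasis k 0 q (by omega))
      rw [exOmega_mul] at this
      simpa [exBasis] using this
  · exact x.2 i hi

theorem exAlg_one_ne (k : ℤ) : (exAlg k).one ∉ (exAlg k).Bd 0 := by
  intro h
  rw [exAlg_mem_Bd] at h
  have h1 : ((exAlg k).one.1 : Fin 4 → ℚ) 0 = 0 := by
    rw [h]
    rfl
  exact one_ne_zero h1

/-- The spanning set of the piece of degree `p`. -/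
def exSpan (k p : ℤ) (i : Fin 4) : (exAlg k).X p :=
  if h : exDeg k i = p then exBasis k i p h else 0

theorem exSpan_apply {k p : ℤ} {x : Fin 4 → ℚ} (hx : x ∈ exSub k p) (i j : Fin 4) :
    x i * (exSpan k p i).1 j = if j = i then x i else 0 := by
  unfold exSpan
  split_ifs with h h' h'
  · subst h'
    simp [exBasis]
  · simp [exBasis, h']
  · rw [hx i h]
    simp
  · change x i * 0 = 0
    simp

theorem coe_comb (k p : ℤ) {ι : Type} [Fintype ι] (c : ι → ℚ) (e : ι → (exAlg k).X p)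
    (j : Fin 4) : ((exAlg k).V.comb c e).1 j = ∑ i, c i * (e i).1 j := by
  have h1 : ((exAlg k).V.comb c e).1 = ∑ i, c i • (e i).1 := by
    unfold GS.comb
    exact map_sum (exSub k p).subtype _ _
  rw [h1, Finset.sum_apply]
  rfl

theorem exAlg_poincareDuality (k : ℤ) (hk : 0 < k) :
    (exAlg k).PoincareDuality (4 * k) (exOmega k) where
  map_add x y := rfl
  map_smul c x := rfl
  map_bdry x hx := by
    rw [exAlg_mem_Bd.1 hx, map_zero]
  one_ne := exAlg_one_ne k
  connected x _ := by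
    refine ⟨x.1 0, exAlg_mem_Bd.2 (Subtype.ext ?_)⟩
    ext i
    fin_cases i
    · change x.1 0 - x.1 0 * 1 = 0
      ring
    · change x.1 1 - x.1 0 * 0 = 0
      rw [x.2 1 (by change 2 * k ≠ 0; omega)]
      ring
    · change x.1 2 - x.1 0 * 0 = 0
      rw [x.2 2 (by change 2 * k ≠ 0; omega)]
      ring
    · change x.1 3 - x.1 0 * 0 = 0
      rw [x.2 3 (by change 4 * k ≠ 0; omega)]
      ring
  finite p := by
    refine ⟨4, exSpan k p, fun i => exAlg_mem_Z (exSpan k p i),
      fun x _ => ⟨x.1, exAlg_mem_Bd.2 ?_⟩⟩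
    apply exGS_ext
    ext j
    change x.1 j - ((exAlg k).V.comb x.1 (exSpan k p)).1 j = 0
    rw [coe_comb]
    simp only [exSpan_apply x.2]
    rw [Finset.sum_ite_eq Finset.univ j]
    simp
  bounded p hp x _ := by
    apply exAlg_mem_Bd.2
    apply exGS_ext
    ext i
    apply x.2 i
    fin_cases i
    · change (0 : ℤ) ≠ p
      omega
    · change 2 * k ≠ p
      omega
    · change 2 * k ≠ p
      omega
    · change 4 * k ≠ p
      omega
  nondegenerate p q h x _ hx :=
    exAlg_mem_Bd.2 (exAlg_nondegenerate h x (fun y => hx y (exAlg_mem_Z y)))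

theorem exAlg_signatureZero (k : ℤ) (hk : 0 < k) (h : 2 * k + 2 * k = 4 * k) :
    (exAlg k).SignatureZero (2 * k) (4 * k) h (exOmega k) := by
  refine ⟨1, Sum.elim (fun _ => exBasis k 1 (2 * k) rfl) (fun _ => exBasis k 2 (2 * k) rfl),
    fun i => exAlg_mem_Z (Sum.elim (fun _ => exBasis k 1 (2 * k) rfl)
      (fun _ => exBasis k 2 (2 * k) rfl) i), ?_, ?_, ?_, ?_, ?_⟩
  · intro c hc
    have hc := exAlg_mem_Bd.1 hc
    have h0 : ∀ j, ((exAlg k).V.comb c (Sum.elim (fun _ => exBasis k 1 (2 * k) rfl)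
        (fun _ => exBasis k 2 (2 * k) rfl))).1 j = 0 := by
      intro j
      rw [hc]
      rfl
    have h1 := h0 1
    have h2 := h0 2
    rw [coe_comb, Fintype.sum_sum_type] at h1 h2
    simp only [Fin.sum_univ_one, Sum.elim_inl, Sum.elim_inr] at h1 h2
    intro i
    rcases i with i | i
    · obtain rfl : i = 0 := Subsingleton.elim _ _
      simpa [exBasis] using h1
    · obtain rfl : i = 0 := Subsingleton.elim _ _
      simpa [exBasis] using h2
  · intro x _
    refine ⟨Sum.elim (fun _ => x.1 1) (fun _ => x.1 2), exAlg_mem_Bd.2 (exGS_ext ?_)⟩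
    ext j
    change x.1 j - ((exAlg k).V.comb _ _).1 j = 0
    rw [coe_comb, Fintype.sum_sum_type]
    simp only [Fin.sum_univ_one, Sum.elim_inl, Sum.elim_inr]
    fin_cases j
    · change x.1 0 - (x.1 1 * 0 + x.1 2 * 0) = 0
      rw [x.2 0 (by change (0 : ℤ) ≠ 2 * k; omega)]
      ring
    · change x.1 1 - (x.1 1 * 1 + x.1 2 * 0) = 0
      ring
    · change x.1 2 - (x.1 1 * 0 + x.1 2 * 1) = 0
      ring
    · change x.1 3 - (x.1 1 * 0 + x.1 2 * 0) = 0
      rw [x.2 3 (by change 4 * k ≠ 2 * k; omega)]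
      ring
  · intro i j hij
    change exOmega k ((exAlg k).mulL _ _ _ h _ _) = 0
    rw [exOmega_mul]
    rcases i with i | i <;> rcases j with j | j
    · exact absurd (congrArg Sum.inl (Subsingleton.elim i j)) hij
    · simp [exBasis]
    · simp [exBasis]
    · exact absurd (congrArg Sum.inr (Subsingleton.elim i j)) hij
  · intro i
    change 0 < exOmega k ((exAlg k).mulL _ _ _ h _ _)
    rw [exOmega_mul]
    simp [exBasis]
  · intro i
    change exOmega k ((exAlg k).mulL _ _ _ h _ _) < 0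
    rw [exOmega_mul]
    simp [exBasis]

theorem exAlg_good (k : ℤ) (hk : 0 < k) : Good (exAlg k) (4 * k) where
  one_ne := exAlg_one_ne k
  top := by
    refine ⟨exBasis k 3 (4 * k) rfl, exAlg_mem_Z _, fun z _ => ⟨z.1 3, ?_⟩⟩
    rw [exAlg_mem_Bd]
    apply Subtype.ext
    ext i
    fin_cases i
    · change z.1 0 - z.1 3 * 0 = 0
      rw [z.2 0 (by change (0 : ℤ) ≠ 4 * k; omega)]
      ring
    · change z.1 1 - z.1 3 * 0 = 0
      rw [z.2 1 (by change 2 * k ≠ 4 * k; omega)]
      ring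
    · change z.1 2 - z.1 3 * 0 = 0
      rw [z.2 2 (by change 2 * k ≠ 4 * k; omega)]
      ring
    · change z.1 3 - z.1 3 * 1 = 0
      ring
  sq p h z _ hzz := by
    obtain rfl : p = 2 * k := by omega
    rw [exAlg_mem_Bd] at hzz ⊢
    have h1 : z.1 0 = 0 := z.2 0 (by change (0 : ℤ) ≠ 2 * k; omega)
    have h4 : z.1 3 = 0 := z.2 3 (by change 4 * k ≠ 2 * k; omega)
    have h2 : z.1 0 * z.1 3 + z.1 3 * z.1 0 + z.1 1 * z.1 1 - 2 * (z.1 2 * z.1 2) = 0 := by
      rw [← exOmega_mul h z z, hzz, map_zero]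
    rw [h1, h4] at h2
    have h3 : z.1 1 ^ 2 = 2 * z.1 2 ^ 2 := by linear_combination h2
    have h5 : z.1 2 = 0 := by
      by_contra h5
      have h6 : (z.1 1 / z.1 2) ^ 2 = 2 := by
        rw [div_pow, h3]
        field_simp
      have h7 : Irrational (Real.sqrt 2) := irrational_sqrt_two
      apply h7
      refine ⟨|z.1 1 / z.1 2|, ?_⟩
      have h8 : ((|z.1 1 / z.1 2| : ℚ) : ℝ) ^ 2 = 2 := by
        rw [← Rat.cast_pow, sq_abs, h6]
        norm_num
      rw [← h8, Real.sqrt_sq]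
      exact_mod_cast abs_nonneg _
    have h6 : z.1 1 = 0 := by
      rw [h5] at h3
      simpa using h3
    apply Subtype.ext
    ext i
    fin_cases i
    · exact h1
    · exact h6
    · exact h5
    · exact h4
  ne p h := by
    obtain rfl : p = 2 * k := by omega
    refine ⟨exBasis k 1 (2 * k) rfl, exAlg_mem_Z _, fun hz => ?_⟩
    rw [exAlg_mem_Bd] at hz
    have h1 : (exBasis k 1 (2 * k) rfl).1 1 = 0 := by
      rw [hz]
      rfl
    simp [exBasis] at h1

end Pool.Agent.R795.PD
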