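import Pool.Agent.R795.PD.Defs

/-!
# The differential graded module `s^{-n} #Q`
-/

set_option autoImplicit false

namespace Pool.Agent.R795.PD

theorem sg_add (p q : ℤ) : sg (p + q) = sg p * sg q := by
  unfold sg
  rw [Int.negOnePow_add]
  push_cast
  rfl

theorem sg_eq {p q : ℤ} (h : Even (p - q)) : sg p = sg q := by
  unfold sg
  rw [(Int.negOnePow_eq_iff p q).2 h]

theorem sg_mul_self (p : ℤ) : sg p * sg p = 1 := by
  rw [← sg_add]
  unfold sg
  rw [Int.negOnePow_even _ ⟨p, rfl⟩]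
  simp

theorem sg_zero : sg 0 = 1 := by
  unfold sg
  simp

theorem sg_one : sg 1 = -1 := by
  unfold sg
  simp

theorem sg_succ (p : ℤ) : sg (p + 1) = -sg p := by
  rw [sg_add, sg_one]
  ring

/-- The linear map given by a linear function. -/
def GS.IsLin.toLin {V W : GS} {p q : ℤ} {f : V.X p → W.X q} (h : V.IsLin W f) :
    V.X p →ₗ[ℚ] W.X q where
  toFun := f
  map_add' := h.1
  map_smul' := h.2

/-- The linear map `φ ∘ f`. -/
def GS.IsLin.pull {V W : GS} {p q : ℤ} {f : V.X p → W.X q} (h : V.IsLin W f)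
    (φ : Module.Dual ℚ (W.X q)) : Module.Dual ℚ (V.X p) := φ.comp h.toLin

theorem GS.IsLin.pull_apply {V W : GS} {p q : ℤ} {f : V.X p → W.X q} (h : V.IsLin W f)
    (φ : Module.Dual ℚ (W.X q)) (x : V.X p) : h.pull φ x = φ (f x) := rfl

/-- The graded vector space `s^{-n} #V`: its piece of degree `p` is the dual space of
`V^{n-p}`. -/
def GS.shiftDual (V : GS) (n : ℤ) : GS where
  X p := Module.Dual ℚ (V.X (n - p))

theorem degree_d {n p q : ℤ} (h : p + 1 = q) : n - q + 1 = n - p := by omega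

theorem degree_act {n p q r : ℤ} (h : p + q = r) : p + (n - r) = n - q := by omega

/-- The differential of `s^{-n} #Q`: `(d φ)(x) = - (-1) ^ p φ(d x)` for `φ` of degree `p`. -/
def sdD (Q : CDGA) (n p q : ℤ) (h : p + 1 = q) (φ : (Q.V.shiftDual n).X p) :
    (Q.V.shiftDual n).X q :=
  (Q.V.shiftDual n).smul (-sg p) ((Q.d_lin (n - q) (n - p) (degree_d h)).pull φ)

/-- The action of `Q` on `s^{-n} #Q`: `(a φ)(x) = (-1) ^ (|a| |φ|) φ(a x)`. -/
def sdAct (Q : CDGA) (n p q r : ℤ) (h : p + q = r) (a : Q.V.X p) (φ : (Q.V.shiftDual n).X q) :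
    (Q.V.shiftDual n).X r :=
  (Q.V.shiftDual n).smul (sg (p * q))
    (((Q.mul_bil p (n - r) (n - q) (degree_act h)).1 a).pull φ)

/-- The value of `φ` at `x`. -/
def GS.ev {V : GS} {n p : ℤ} (φ : (V.shiftDual n).X p) (x : V.X (n - p)) : ℚ :=
  DFunLike.coe (F := Module.Dual ℚ (V.X (n - p))) φ x

theorem sdD_apply (Q : CDGA) (n p q : ℤ) (h : p + 1 = q) (φ : (Q.V.shiftDual n).X p)
    (x : Q.V.X (n - q)) :
    GS.ev (sdD Q n p q h φ) x = -sg p * GS.ev φ (Q.d (n - q) (n - p) (degree_d h) x) := rfl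

theorem sdAct_apply (Q : CDGA) (n p q r : ℤ) (h : p + q = r) (a : Q.V.X p)
    (φ : (Q.V.shiftDual n).X q) (x : Q.V.X (n - r)) :
    GS.ev (sdAct Q n p q r h a φ) x =
      sg (p * q) * GS.ev φ (Q.mul p (n - r) (n - q) (degree_act h) a x) := rfl

theorem sd_ext {V : GS} {n p : ℤ} {φ ψ : (V.shiftDual n).X p}
    (h : ∀ x : V.X (n - p), GS.ev φ x = GS.ev ψ x) : φ = ψ :=
  LinearMap.ext h

theorem sd_add {V : GS} {n p : ℤ} (φ ψ : (V.shiftDual n).X p) (x : V.X (n - p)) :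
    GS.ev ((V.shiftDual n).add φ ψ) x = GS.ev φ x + GS.ev ψ x := rfl

theorem sd_smul {V : GS} {n p : ℤ} (c : ℚ) (φ : (V.shiftDual n).X p) (x : V.X (n - p)) :
    GS.ev ((V.shiftDual n).smul c φ) x = c * GS.ev φ x := rfl

theorem sd_zero {V : GS} {n p : ℤ} (x : V.X (n - p)) :
    GS.ev ((V.shiftDual n).zero p) x = 0 := rfl

theorem ev_add {V : GS} {n p : ℤ} (φ : (V.shiftDual n).X p) (x y : V.X (n - p)) :
    GS.ev φ (V.add x y) = GS.ev φ x + GS.ev φ y :=
  LinearMap.map_add (show Module.Dual ℚ (V.X (n - p)) from φ) x y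

theorem ev_smul {V : GS} {n p : ℤ} (φ : (V.shiftDual n).X p) (c : ℚ) (x : V.X (n - p)) :
    GS.ev φ (V.smul c x) = c * GS.ev φ x :=
  LinearMap.map_smul (show Module.Dual ℚ (V.X (n - p)) from φ) c x

theorem ev_zero {V : GS} {n p : ℤ} (φ : (V.shiftDual n).X p) :
    GS.ev φ (V.zero (n - p)) = 0 :=
  LinearMap.map_zero (show Module.Dual ℚ (V.X (n - p)) from φ)

theorem CDGA.add_mul (Q : CDGA) {p q r : ℤ} (h : p + q = r) (a b : Q.V.X p) (x : Q.V.X q) :
    Q.mul p q r h (Q.V.add a b) x = Q.V.add (Q.mul p q r h a x) (Q.mul p q r h b x) :=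
  ((Q.mul_bil p q r h).2 x).1 a b

theorem CDGA.smul_mul (Q : CDGA) {p q r : ℤ} (h : p + q = r) (c : ℚ) (a : Q.V.X p)
    (x : Q.V.X q) : Q.mul p q r h (Q.V.smul c a) x = Q.V.smul c (Q.mul p q r h a x) :=
  ((Q.mul_bil p q r h).2 x).2 c a

theorem sdD_lin (Q : CDGA) (n p q : ℤ) (h : p + 1 = q) :
    (Q.V.shiftDual n).IsLin (Q.V.shiftDual n) (sdD Q n p q h) := by
  constructor
  · intro φ ψ
    apply sd_ext
    intro x
    rw [sdD_apply, sd_add, sd_add, sdD_apply, sdD_apply]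
    ring
  · intro c φ
    apply sd_ext
    intro x
    rw [sdD_apply, sd_smul, sd_smul, sdD_apply]
    ring

theorem sdAct_bil (Q : CDGA) (n p q r : ℤ) (h : p + q = r) :
    Q.V.IsBil (Q.V.shiftDual n) (Q.V.shiftDual n) (sdAct Q n p q r h) := by
  refine ⟨fun a => ⟨?_, ?_⟩, fun φ => ⟨?_, ?_⟩⟩
  · intro φ ψ
    apply sd_ext
    intro x
    rw [sdAct_apply, sd_add, sd_add, sdAct_apply, sdAct_apply]
    ring
  · intro c φ
    apply sd_ext
    intro x
    rw [sdAct_apply, sd_smul, sd_smul, sdAct_apply]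
    ring
  · intro a b
    apply sd_ext
    intro x
    rw [sd_add, sdAct_apply, sdAct_apply, sdAct_apply,
      CDGA.add_mul, ev_add]
    ring
  · intro c a
    apply sd_ext
    intro x
    rw [sd_smul, sdAct_apply, sdAct_apply,
      CDGA.smul_mul, ev_smul]
    ring

theorem sdD_d (Q : CDGA) (n p q r : ℤ) (h : p + 1 = q) (h' : q + 1 = r)
    (φ : (Q.V.shiftDual n).X p) :
    sdD Q n q r h' (sdD Q n p q h φ) = (Q.V.shiftDual n).zero r := by
  apply sd_ext
  intro x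
  rw [sdD_apply, sdD_apply, Q.d_d, ev_zero, sd_zero]
  ring

theorem sd_one (Q : CDGA) (n p : ℤ) (h : 0 + p = p) (φ : (Q.V.shiftDual n).X p) :
    sdAct Q n 0 p p h Q.one φ = φ := by
  apply sd_ext
  intro x
  rw [sdAct_apply, Q.one_mul, zero_mul, sg_zero, one_mul]

theorem sd_mul (Q : CDGA) (n p q r s t u : ℤ) (h₁ : p + q = s) (h₂ : s + r = u) (h₃ : q + r = t)
    (h₄ : p + t = u) (a : Q.V.X p) (b : Q.V.X q) (φ : (Q.V.shiftDual n).X r) :
    sdAct Q n s r u h₂ (Q.mul p q s h₁ a b) φ =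
      sdAct Q n p t u h₄ a (sdAct Q n q r t h₃ b φ) := by
  apply sd_ext
  intro y
  rw [sdAct_apply, sdAct_apply, sdAct_apply, Q.mul_comm p q s h₁ (by omega) a b,
    CDGA.smul_mul, ev_smul,
    Q.mul_assoc q p (n - u) s (n - t) (n - r) _ _ (degree_act h₄) (degree_act h₃) b a y,
    ← mul_assoc, ← mul_assoc, ← sg_add, ← sg_add]
  congr 1
  apply sg_eq
  subst h₁ h₃
  exact ⟨0, by ring⟩

theorem sd_leibniz (Q : CDGA) (n p q r p' q' r' : ℤ) (h : p + q = r) (hp : p + 1 = p')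
    (hq : q + 1 = q') (hr : r + 1 = r') (h₁ : p' + q = r') (h₂ : p + q' = r') (a : Q.V.X p)
    (φ : (Q.V.shiftDual n).X q) :
    sdD Q n r r' hr (sdAct Q n p q r h a φ) =
      (Q.V.shiftDual n).add (sdAct Q n p' q r' h₁ (Q.d p p' hp a) φ)
        ((Q.V.shiftDual n).smul (sg p) (sdAct Q n p q' r' h₂ a (sdD Q n q q' hq φ))) := by
  apply sd_ext
  intro y
  rw [sd_add, sd_smul, sdD_apply, sdAct_apply, sdAct_apply, sdAct_apply, sdD_apply,
    Q.leibniz p (n - r') (n - q') p' (n - r) (n - q) (degree_act h₂) hp (degree_d hr)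
      (degree_d hq) (degree_act h₁) (degree_act h) a y, ev_add, ev_smul]
  subst h hp hq
  have e1 : sg ((p + 1) * q) = sg (p * q) * sg q := by rw [← sg_add]; congr 1; ring
  have e2 : sg (p * (q + 1)) = sg (p * q) * sg p := by rw [← sg_add]; congr 1; ring
  rw [e1, e2, sg_add p q]
  linear_combination (sg (p * q) * sg q * GS.ev φ
    (Q.mul (p + 1) (n - r') (n - q) (degree_act h₁) (Q.d p (p + 1) rfl a) y) +
    sg (p * q) * sg q * sg p * GS.ev φ
      (Q.mul p (n - (p + q)) (n - q) (degree_act rfl) a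
        (Q.d (n - r') (n - (p + q)) (degree_d hr) y))) * sg_mul_self p

/-- The differential graded `Q`-module `s^{-n} #Q`, with the dual action and differential. -/
def shiftDual (Q : CDGA) (n : ℤ) : DGModule Q where
  V := Q.V.shiftDual n
  d := sdD Q n
  act := sdAct Q n
  d_lin := sdD_lin Q n
  act_bil := sdAct_bil Q n
  d_d := sdD_d Q n
  one_act := sd_one Q n
  mul_act := sd_mul Q n
  leibniz := sd_leibniz Q n

end Pool.Agent.R795.PD
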