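import Pool.Agent.R795.PD.Cone

/-!
# Properties of the cohomology algebra which are invariant under quasi-isomorphisms
-/

set_option autoImplicit false

namespace Pool.Agent.R795.PD

open Module

namespace CDGA.Hom

variable {A B : CDGA} (f : CDGA.Hom A B)

/-- The components of `f` as linear maps. -/
def fL (p : ℤ) : A.X p →ₗ[ℚ] B.X p := (f.f_lin p).toLin

theorem fL_dL (p q : ℤ) (h : p + 1 = q) (x : A.X p) :
    f.fL q (A.dL p q h x) = B.dL p q h (f.fL p x) := f.map_d p q h x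

theorem fL_mulL (p q r : ℤ) (h : p + q = r) (x : A.X p) (y : A.X q) :
    f.fL r (A.mulL p q r h x y) = B.mulL p q r h (f.fL p x) (f.fL q y) := f.map_mul p q r h x y

theorem fL_one : f.fL 0 A.one = B.one := f.map_one

theorem IsQuasiIso.nat {f : CDGA.Hom A B} (hf : f.IsQuasiIso) (p : ℤ) :
    (∀ x ∈ A.Z p, f.fL p x ∈ B.Bd p → x ∈ A.Bd p) ∧
      (∀ y ∈ B.Z p, ∃ x ∈ A.Z p, y - f.fL p x ∈ B.Bd p) := hf p

theorem map_Z {p : ℤ} {x : A.X p} (hx : x ∈ A.Z p) : f.fL p x ∈ B.Z p := by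
  rw [CDGA.mem_Z, ← f.fL_dL, A.d_eq_zero rfl hx, map_zero]

theorem map_Bd {p : ℤ} {x : A.X p} (hx : x ∈ A.Bd p) : f.fL p x ∈ B.Bd p := by
  obtain ⟨y, rfl⟩ := (A.mem_Bd_iff (sub_add_cancel p 1)).1 hx
  rw [f.fL_dL]
  exact B.d_mem_Bd _ _

end CDGA.Hom

/-- The properties of the cohomology algebra used in the argument. -/
structure Good (A : CDGA) (m : ℤ) : Prop where
  one_ne : A.one ∉ A.Bd 0
  top : ∃ w ∈ A.Z m, ∀ z ∈ A.Z m, ∃ c : ℚ, z - c • w ∈ A.Bd m
  sq : ∀ (p : ℤ) (h : p + p = m), ∀ z ∈ A.Z p, A.mulL p p m h z z ∈ A.Bd m → z ∈ A.Bd p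
  ne : ∀ p : ℤ, p + p = m → ∃ z ∈ A.Z p, z ∉ A.Bd p

theorem Good.of_hom {A B : CDGA} {m : ℤ} (f : CDGA.Hom A B) (hf : f.IsQuasiIso)
    (hA : Good A m) : Good B m where
  one_ne h := hA.one_ne ((hf.nat 0).1 _ A.one_mem_Z (by rwa [f.fL_one]))
  top := by
    obtain ⟨w, hw, h⟩ := hA.top
    refine ⟨f.fL m w, f.map_Z hw, fun z hz => ?_⟩
    obtain ⟨x, hx, hzx⟩ := (hf.nat m).2 z hz
    obtain ⟨c, hc⟩ := h x hx
    refine ⟨c, ?_⟩
    have := Submodule.add_mem _ hzx (f.map_Bd hc)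
    rw [map_sub, map_smul, sub_add_sub_cancel] at this
    exact this
  sq p h z hz hzz := by
    obtain ⟨x, hx, hzx⟩ := (hf.nat p).2 z hz
    have h1 : B.mulL p p m h (f.fL p x) (f.fL p x) ∈ B.Bd m := by
      have h2 : B.mulL p p m h (f.fL p x) (f.fL p x) =
          B.mulL p p m h z z - (B.mulL p p m h (z - f.fL p x) z +
            B.mulL p p m h (f.fL p x) (z - f.fL p x)) := by
        simp only [map_sub, LinearMap.sub_apply]
        abel
      rw [h2]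
      exact Submodule.sub_mem _ hzz (Submodule.add_mem _ (B.mul_mem_Bd' h hzx hz)
        (B.mul_mem_Bd h (f.map_Z hx) hzx))
    rw [← f.fL_mulL] at h1
    have h3 := hA.sq p h x hx ((hf.nat m).1 _ (A.mul_mem_Z h hx hx) h1)
    have := Submodule.add_mem _ hzx (f.map_Bd h3)
    rwa [sub_add_cancel] at this
  ne p h := by
    obtain ⟨z, hz, hz'⟩ := hA.ne p h
    exact ⟨f.fL p z, f.map_Z hz, fun h => hz' ((hf.nat p).1 z hz h)⟩

theorem Good.of_hom' {A B : CDGA} {m : ℤ} (f : CDGA.Hom A B) (hf : f.IsQuasiIso)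
    (hB : Good B m) : Good A m where
  one_ne h := hB.one_ne (by
    rw [← f.fL_one]
    exact f.map_Bd h)
  top := by
    obtain ⟨w, hw, h⟩ := hB.top
    obtain ⟨w', hw', hww⟩ := (hf.nat m).2 w hw
    refine ⟨w', hw', fun z hz => ?_⟩
    obtain ⟨c, hc⟩ := h _ (f.map_Z hz)
    refine ⟨c, (hf.nat m).1 _ (Submodule.sub_mem _ hz (Submodule.smul_mem _ _ hw')) ?_⟩
    have := Submodule.add_mem _ hc (Submodule.smul_mem _ c hww)
    rw [smul_sub, sub_add_sub_cancel] at this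
    rw [map_sub, map_smul]
    exact this
  sq p h z hz hzz := by
    have h1 := f.map_Bd hzz
    rw [f.fL_mulL] at h1
    exact (hf.nat p).1 z hz (hB.sq p h _ (f.map_Z hz) h1)
  ne p h := by
    obtain ⟨z, hz, hz'⟩ := hB.ne p h
    obtain ⟨x, hx, hzx⟩ := (hf.nat p).2 z hz
    refine ⟨x, hx, fun hx' => hz' ?_⟩
    have := Submodule.add_mem _ hzx (f.map_Bd hx')
    rwa [sub_add_cancel] at this

theorem Good.iff_of_quasiIsomorphic {A B : CDGA} {m : ℤ} (h : QuasiIsomorphic A B) :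
    Good A m ↔ Good B m := by
  induction h with
  | rel A B h =>
    obtain ⟨f, hf⟩ := h
    exact ⟨Good.of_hom f hf, Good.of_hom' f hf⟩
  | refl A => exact Iff.rfl
  | symm A B _ ih => exact ih.symm
  | trans A B C _ _ ih1 ih2 => exact ih1.trans ih2

/-- A cone of the form considered is never `Good`. -/
theorem not_good_cone {Q : CDGA} {m p : ℤ} (hp : p + p = m)
    (Ψ : (shiftDual Q (m + 1)).HomToBase) (hΨ : Ψ.Balanced) : ¬ Good (cone Ψ hΨ) m := by
  intro h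
  obtain ⟨z, hz, hz'⟩ := h.ne p hp
  exact hz' (main_cone Ψ hΨ h.one_ne h.top h.sq p hp z hz)

end Pool.Agent.R795.PD
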